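import Pool.Agent.Lib.MP_b8b490_an.A6

open MeasureTheory Set Filter Topology
open scoped ENNReal

namespace Pool.Agent.Lib.MP_b8b490_an.Four

theorem sphereArea_four : sphereArea 4 = 2 * Real.pi ^ 2 := by
  unfold sphereArea
  have hG : Real.Gamma (1 + ((4 : ℕ) : ℝ) / 2) = 2 := by
    have e1 : (1 + ((4 : ℕ) : ℝ) / 2) = ((2 : ℕ) : ℝ) + 1 := by push_cast; norm_num
    rw [e1, Real.Gamma_nat_eq_factorial]
    norm_num [Nat.factorial]
  have hp : Real.pi ^ (((4 : ℕ) : ℝ) / 2) = Real.pi ^ 2 := by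
    have e3 : (((4 : ℕ) : ℝ) / 2) = ((2 : ℕ) : ℝ) := by push_cast; norm_num
    rw [e3, Real.rpow_natCast]
  rw [hG, hp]
  push_cast
  ring

/-- from the duality inequality to the modulus; if `N = 0` or `cap = ⊤` the left side is `0` -/
theorem modulus_le {R C0 C1 : Set (Fin 4 → ℝ)} {N : ℝ} (hN : 0 ≤ N)
    (h : ∀ f, Admissible R C0 C1 f → dirichlet R f ≠ ⊤ →
      ENNReal.ofReal (2 * Real.pi ^ 2) ≤
        dirichlet R f ^ ((1 : ℝ) / 4) * ENNReal.ofReal N ^ ((3 : ℝ) / 4)) :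
    modulus R C0 C1 ≤ N / (2 * Real.pi ^ 2) := by
  have hpi := Real.pi_pos
  have h4 : 0 < 2 * Real.pi ^ 2 := by positivity
  unfold modulus
  rw [sphereArea_four]
  have hexp : (1 / (((4 : ℕ) : ℝ) - 1)) = 1 / 3 := by push_cast; norm_num
  rw [hexp]
  by_cases htop : cap R C0 C1 = ⊤
  · rw [htop]
    simp only [ENNReal.toReal_top, div_zero]
    rw [Real.zero_rpow (by norm_num)]
    positivity
  rcases hN.eq_or_lt with hN0 | hNpos
  · exfalso
    apply htop
    unfold cap
    refine iInf_eq_top.mpr fun f => iInf_eq_top.mpr fun hf => ?_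
    by_contra hne
    have h5 := h f hf hne
    rw [← hN0, ENNReal.ofReal_zero, ENNReal.zero_rpow_of_pos (by norm_num), mul_zero] at h5
    have h6 : ENNReal.ofReal (2 * Real.pi ^ 2) = 0 := le_antisymm h5 (zero_le)
    rw [ENNReal.ofReal_eq_zero] at h6
    linarith
  · have hcap : ENNReal.ofReal ((2 * Real.pi ^ 2) ^ 4 / N ^ 3) ≤ cap R C0 C1 := by
      unfold cap
      refine le_iInf fun f => le_iInf fun hf => ?_
      by_cases hne : dirichlet R f = ⊤
      · rw [hne]
        exact le_top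
      · have h5 := h f hf hne
        set D := (dirichlet R f).toReal with hD
        have hDr : dirichlet R f = ENNReal.ofReal D := (ENNReal.ofReal_toReal hne).symm
        rw [hDr] at h5 ⊢
        have hD0 : 0 ≤ D := ENNReal.toReal_nonneg
        rw [ENNReal.ofReal_rpow_of_nonneg hD0 (by norm_num),
          ENNReal.ofReal_rpow_of_nonneg hN (by norm_num),
          ← ENNReal.ofReal_mul (by positivity)] at h5
        rw [ENNReal.ofReal_le_ofReal_iff (by positivity)] at h5
        refine ENNReal.ofReal_le_ofReal ?_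
        rw [div_le_iff₀ (by positivity)]
        have h6 : (2 * Real.pi ^ 2) ^ 4 ≤ (D ^ ((1 : ℝ) / 4) * N ^ ((3 : ℝ) / 4)) ^ 4 := by
          gcongr
        refine h6.trans (le_of_eq ?_)
        rw [mul_pow, ← Real.rpow_natCast, ← Real.rpow_natCast, ← Real.rpow_mul hD0,
          ← Real.rpow_mul hN]
        norm_num
    have hreal : (2 * Real.pi ^ 2) ^ 4 / N ^ 3 ≤ (cap R C0 C1).toReal := by
      have h7 := ENNReal.toReal_mono htop hcap
      rwa [ENNReal.toReal_ofReal (by positivity)] at h7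
    have hpos3 : 0 < (2 * Real.pi ^ 2) ^ 4 / N ^ 3 := by positivity
    have h8 : 2 * Real.pi ^ 2 / (cap R C0 C1).toReal ≤ (N / (2 * Real.pi ^ 2)) ^ 3 := by
      calc 2 * Real.pi ^ 2 / (cap R C0 C1).toReal
          ≤ 2 * Real.pi ^ 2 / ((2 * Real.pi ^ 2) ^ 4 / N ^ 3) := by gcongr
        _ = (N / (2 * Real.pi ^ 2)) ^ 3 := by
            field_simp
    have h9 : 0 ≤ 2 * Real.pi ^ 2 / (cap R C0 C1).toReal :=
      div_nonneg h4.le ENNReal.toReal_nonneg
    have h10 : 0 ≤ N / (2 * Real.pi ^ 2) := by positivity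
    calc (2 * Real.pi ^ 2 / (cap R C0 C1).toReal) ^ ((1 : ℝ) / 3)
        ≤ ((N / (2 * Real.pi ^ 2)) ^ 3) ^ ((1 : ℝ) / 3) :=
          Real.rpow_le_rpow h9 h8 (by norm_num)
      _ = N / (2 * Real.pi ^ 2) := by
          rw [← Real.rpow_natCast, ← Real.rpow_mul h10]
          norm_num

end Pool.Agent.Lib.MP_b8b490_an.Four
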