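import Pool.Agent.Lib.MP_b8b490_an.C1

open MeasureTheory Set Filter Topology
open scoped ENNReal

namespace Pool.Agent.Lib.MP_b8b490_an.Four

private theorem C1_space {h : ℝ → ℝ≥0∞} (hh : Measurable h) :
    ∫⁻ y : Fin 3 → ℝ, h (Real.sqrt (y 0 ^ 2 + y 1 ^ 2 + y 2 ^ 2)) =
      ∫⁻ r in Ioi (0 : ℝ), ENNReal.ofReal (4 * Real.pi * r ^ 2) * h r := by
  have h1 : ∫⁻ y : Fin 3 → ℝ, h (Real.sqrt (y 0 ^ 2 + y 1 ^ 2 + y 2 ^ 2)) =
      ∫⁻ y : Fin 3 → ℝ, (fun p : ℝ × ℝ => h (Real.sqrt (p.1 ^ 2 + p.2 ^ 2)))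
        (y 0, Real.sqrt (y 1 ^ 2 + y 2 ^ 2)) := by
    refine lintegral_congr fun y => ?_
    have e : Real.sqrt (y 1 ^ 2 + y 2 ^ 2) ^ 2 = y 1 ^ 2 + y 2 ^ 2 := Real.sq_sqrt (by positivity)
    simp only [e, add_assoc]
  rw [h1, lintegral_axisym (g := fun p : ℝ × ℝ => h (Real.sqrt (p.1 ^ 2 + p.2 ^ 2)))
    (hh.comp (by fun_prop))]
  have hset : MeasurableSet ((univ : Set ℝ) ×ˢ Ioi (0 : ℝ)) := MeasurableSet.univ.prod measurableSet_Ioi
  rw [← lintegral_indicator hset, ← lintegral_comp_polarCoord_symm]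
  have h2 : ∫⁻ p in polarCoord.target, ENNReal.ofReal p.1 •
      ((univ : Set ℝ) ×ˢ Ioi (0 : ℝ)).indicator (fun p : ℝ × ℝ =>
        ENNReal.ofReal (2 * Real.pi * p.2) * h (Real.sqrt (p.1 ^ 2 + p.2 ^ 2)))
        (polarCoord.symm p) =
      ∫⁻ p in Ioi (0 : ℝ) ×ˢ Ioo (-Real.pi) Real.pi,
        (Ioi (0 : ℝ) ×ˢ Ioo 0 Real.pi).indicator (fun p : ℝ × ℝ =>
          ENNReal.ofReal (2 * Real.pi * p.1 ^ 2 * Real.sin p.2) * h p.1) p := by
    have ht : polarCoord.target = Ioi (0 : ℝ) ×ˢ Ioo (-Real.pi) Real.pi := rfl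
    rw [ht]
    refine setLIntegral_congr_fun (measurableSet_Ioi.prod measurableSet_Ioo) ?_
    rintro ⟨r, θ⟩ ⟨hr, hθ⟩
    have hr' : (0 : ℝ) < r := hr
    have hθ1 : -Real.pi < θ := hθ.1
    have hθ2 : θ < Real.pi := hθ.2
    have e : (r * Real.cos θ) ^ 2 + (r * Real.sin θ) ^ 2 = r ^ 2 := by
      have := Real.sin_sq_add_cos_sq θ
      linear_combination r ^ 2 * this
    simp only [polarCoord_symm_apply, smul_eq_mul]
    by_cases hs : 0 < θ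
    · have hsin : 0 < Real.sin θ := Real.sin_pos_of_pos_of_lt_pi hs hθ2
      have m1 : (r * Real.cos θ, r * Real.sin θ) ∈ (univ : Set ℝ) ×ˢ Ioi (0 : ℝ) :=
        ⟨mem_univ _, mul_pos hr' hsin⟩
      have m2 : (r, θ) ∈ Ioi (0 : ℝ) ×ˢ Ioo 0 Real.pi := ⟨hr', hs, hθ2⟩
      rw [indicator_of_mem m1, indicator_of_mem m2]
      simp only
      rw [e, Real.sqrt_sq hr'.le, ← mul_assoc, ← ENNReal.ofReal_mul hr'.le]
      congr 2
      ring
    · have hsin : Real.sin θ ≤ 0 := Real.sin_nonpos_of_nonpos_of_neg_pi_le (not_lt.1 hs) hθ1.le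
      have m1 : (r * Real.cos θ, r * Real.sin θ) ∉ (univ : Set ℝ) ×ˢ Ioi (0 : ℝ) := by
        rintro ⟨-, hm⟩
        have hm' : (0 : ℝ) < r * Real.sin θ := hm
        nlinarith
      have m2 : (r, θ) ∉ Ioi (0 : ℝ) ×ˢ Ioo 0 Real.pi := fun hm => hs hm.2.1
      rw [indicator_of_notMem m1, indicator_of_notMem m2, mul_zero]
  rw [h2]
  have hm2 : Measurable fun p : ℝ × ℝ =>
      ENNReal.ofReal (2 * Real.pi * p.1 ^ 2 * Real.sin p.2) * h p.1 := by fun_prop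
  have hset2 : MeasurableSet (Ioi (0 : ℝ) ×ˢ Ioo 0 Real.pi) := measurableSet_Ioi.prod measurableSet_Ioo
  have hsub : Ioi (0 : ℝ) ×ˢ Ioo 0 Real.pi ⊆ Ioi (0 : ℝ) ×ˢ Ioo (-Real.pi) Real.pi :=
    prod_mono_right (Ioo_subset_Ioo_left (by linarith [Real.pi_pos]))
  rw [lintegral_indicator hset2, Measure.restrict_restrict hset2, inter_eq_left.2 hsub,
    Measure.volume_eq_prod, ← Measure.prod_restrict, lintegral_prod _ hm2.aemeasurable]
  refine setLIntegral_congr_fun measurableSet_Ioi ?_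
  intro r hr
  have hr' : (0 : ℝ) < r := hr
  simp only
  rw [lintegral_mul_const _ (by fun_prop)]
  congr 1
  have hint : IntegrableOn (fun θ => 2 * Real.pi * r ^ 2 * Real.sin θ) (Ioo 0 Real.pi) := by
    have hc : Continuous fun θ => 2 * Real.pi * r ^ 2 * Real.sin θ := by fun_prop
    exact (hc.integrableOn_Icc (a := 0) (b := Real.pi)).mono_set Ioo_subset_Icc_self
  rw [← ofReal_integral_eq_lintegral_ofReal hint]
  · congr 1
    rw [← integral_Ioc_eq_integral_Ioo, ← intervalIntegral.integral_of_le Real.pi_pos.le,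
      intervalIntegral.integral_const_mul, integral_sin]
    simp
    ring
  · refine (ae_restrict_iff' measurableSet_Ioo).2 (ae_of_all _ fun θ hθ => ?_)
    have := Real.sin_pos_of_pos_of_lt_pi hθ.1 hθ.2
    show 0 ≤ 2 * Real.pi * r ^ 2 * Real.sin θ
    have := Real.pi_pos
    positivity

/-- integrals of rotation symmetric functions on `ℝ⁴` -/
theorem lintegral_axisym {g : ℝ × ℝ → ℝ≥0∞} (hg : Measurable g) :
    ∫⁻ x : Fin 4 → ℝ, g (x 0, Real.sqrt (x 1 ^ 2 + x 2 ^ 2 + x 3 ^ 2)) =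
      ∫⁻ p in (univ : Set ℝ) ×ˢ Ioi (0 : ℝ), ENNReal.ofReal (4 * Real.pi * p.2 ^ 2) * g p := by
  have hm : Measurable fun z : ℝ × (Fin 3 → ℝ) =>
      g (z.1, Real.sqrt (z.2 0 ^ 2 + z.2 1 ^ 2 + z.2 2 ^ 2)) := hg.comp (by fun_prop)
  have h1 : ∫⁻ x : Fin 4 → ℝ, g (x 0, Real.sqrt (x 1 ^ 2 + x 2 ^ 2 + x 3 ^ 2)) =
      ∫⁻ z : ℝ × (Fin 3 → ℝ), g (z.1, Real.sqrt (z.2 0 ^ 2 + z.2 1 ^ 2 + z.2 2 ^ 2)) :=
    (volume_preserving_piFinSuccAbove (fun _ : Fin 4 => ℝ) 0).lintegral_comp hm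
  rw [h1, Measure.volume_eq_prod, lintegral_prod _ hm.aemeasurable]
  have hm2 : Measurable fun p : ℝ × ℝ => ENNReal.ofReal (4 * Real.pi * p.2 ^ 2) * g p := by fun_prop
  rw [Measure.volume_eq_prod, ← Measure.prod_restrict, lintegral_prod _ hm2.aemeasurable,
    Measure.restrict_univ]
  refine lintegral_congr fun s => ?_
  exact C1_space (h := fun r => g (s, r)) (hg.comp (by fun_prop))

end Pool.Agent.Lib.MP_b8b490_an.Four
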