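import Pool.Agent.Lib.MP_b8b490_an.B2
import Pool.Agent.Lib.MP_b8b490_an.Four.C3

open MeasureTheory Set Filter Topology
open scoped ENNReal

namespace Pool.Agent.Lib.MP_b8b490_an.Four

/-- the one variable cut-off -/
private noncomputable def eta4 (C1 C2 C : ℝ) : ℝ := Real.smoothTransition ((C - C1) / (C2 - C1))

private lemma eta4_contDiff (C1 C2 : ℝ) : ContDiff ℝ 2 (eta4 C1 C2) :=
  Real.smoothTransition.contDiff.comp ((contDiff_id.sub contDiff_const).div_const _)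

private lemma eta4_zero {C1 C2 C : ℝ} (h12 : C1 < C2) (h : C ≤ C1) : eta4 C1 C2 C = 0 :=
  Real.smoothTransition.zero_of_nonpos (div_nonpos_of_nonpos_of_nonneg (by linarith) (by linarith))

private lemma eta4_one {C1 C2 C : ℝ} (h12 : C1 < C2) (h : C2 ≤ C) : eta4 C1 C2 C = 1 :=
  Real.smoothTransition.one_of_one_le (by rw [le_div_iff₀ (by linarith)]; linarith)

private lemma eta4_deriv_zero {C1 C2 C : ℝ} (h12 : C1 < C2) (h : C < C1 ∨ C2 < C) :
    deriv (eta4 C1 C2) C = 0 := by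
  rcases h with h | h
  · have : eta4 C1 C2 =ᶠ[𝓝 C] fun _ => 0 := by
      filter_upwards [gt_mem_nhds h] with c hc using eta4_zero h12 hc.le
    rw [this.deriv_eq, deriv_const]
  · have : eta4 C1 C2 =ᶠ[𝓝 C] fun _ => 1 := by
      filter_upwards [lt_mem_nhds h] with c hc using eta4_one h12 hc.le
    rw [this.deriv_eq, deriv_const]

private lemma eta4_hasDerivAt (C1 C2 C : ℝ) : HasDerivAt (eta4 C1 C2) (deriv (eta4 C1 C2) C) C :=
  ((eta4_contDiff C1 C2).differentiable (by norm_num)).differentiableAt.hasDerivAt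

private lemma eta4_deriv_cont (C1 C2 : ℝ) : Continuous (deriv (eta4 C1 C2)) :=
  (eta4_contDiff C1 C2).continuous_deriv (by norm_num)

private lemma eta4_integral {C1 C2 : ℝ} (h1 : 1 < C1) (h12 : C1 < C2) :
    ∫ C in Ioi (1 : ℝ), deriv (eta4 C1 C2) C = 1 := by
  have hint : IntegrableOn (deriv (eta4 C1 C2)) (Ioi 1) := by
    refine ((eta4_deriv_cont C1 C2).continuousOn.integrableOn_compact (isCompact_Icc (a := C1) (b := C2))).of_forall_sdiff_eq_zero
      measurableSet_Ioi ?_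
    intro C hC
    refine eta4_deriv_zero h12 ?_
    by_contra hcon
    push Not at hcon
    exact hC.2 ⟨hcon.1, hcon.2⟩
  have hlim : Tendsto (eta4 C1 C2) atTop (𝓝 1) := by
    refine tendsto_const_nhds.congr' ?_
    filter_upwards [eventually_ge_atTop C2] with C hC
    exact (eta4_one h12 hC).symm
  rw [integral_Ioi_of_hasDerivAt_of_tendsto' (fun C _ => eta4_hasDerivAt C1 C2 C) hint hlim,
    eta4_zero h12 h1.le, sub_zero]

private lemma rr_contDiffAt4 {k : ℕ} {b : ℝ} {x : Fin (k + 1) → ℝ} (hx : 0 < rr b x) :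
    ContDiffAt ℝ 1 (rr (k := k) b) x := by
  have h1 : ContDiff ℝ 1 fun y : Fin (k + 1) → ℝ => ∑ i, (y i - pt b i) ^ 2 := by
    refine ContDiff.sum fun i _ => ?_
    exact ((contDiff_apply ℝ ℝ i).sub contDiff_const).pow 2
  have h2 : (∑ i, (x i - pt b i) ^ 2) ≠ 0 := by
    rw [← rr_sq]
    exact (pow_pos hx 2).ne'
  exact h1.contDiffAt.sqrt h2

private lemma Cc_contDiffAt4 {k : ℕ} {a : ℝ} (ha : 0 < a) {x : Fin (k + 1) → ℝ} (hx : x ∉ slit a) :
    ContDiffAt ℝ 1 (Cc (k := k) a) x := by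
  obtain ⟨h0, h1⟩ := rr_pos ha hx
  exact ((rr_contDiffAt4 h0).add (rr_contDiffAt4 h1)).div_const a

/-- the cut-off function `χ = η(C)` with `η = 0` for `C ≤ C₁`, `η = 1` for `C ≥ C₂`,
`1 < C₁ < C₂ < 2 / a - 1`, and the flux of the field -/
theorem exists_chi {a : ℝ} (ha0 : 0 < a) (ha1 : a < 1) {α αC αt β βC βt : ℝ → ℝ → ℝ}
    (hα : IsC1 α αC αt) (hβ : IsC1 β βC βt)
    (hflux : ∀ C, 1 < C → ∫ t in (-1 : ℝ)..1, Real.sqrt (1 - t ^ 2) * α C t =
      2 * Real.pi / (a ^ 2 * ((C ^ 2 - 1) * Real.sqrt (C ^ 2 - 1)))) :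
    ∃ (χ : (Fin (3 + 1) → ℝ) → ℝ) (U0 U1 : Set (Fin (3 + 1) → ℝ)), ContDiff ℝ 1 χ ∧
      IsOpen U0 ∧ IsOpen U1 ∧ slit a ⊆ U0 ∧ outer ⊆ U1 ∧ (∀ x ∈ U0, χ x = 0) ∧
      (∀ x ∈ U1, χ x = 1) ∧
      ∫ x in ring a, ∑ i, pd χ i x * fld a α β i x = 2 * Real.pi ^ 2 := by
  set M : ℝ := 2 / a - 1 with hM
  have hM1 : 1 < M := by
    rw [hM, lt_sub_iff_add_lt, lt_div_iff₀ ha0]
    linarith
  set C1 : ℝ := 1 + (M - 1) / 3 with hC1
  set C2 : ℝ := 1 + 2 * (M - 1) / 3 with hC2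
  have h1 : 1 < C1 := by rw [hC1]; linarith
  have h12 : C1 < C2 := by rw [hC1, hC2]; linarith
  have h2M : C2 < M := by rw [hC2]; linarith
  have hcc : Continuous (Cc (k := 3) a) := continuous_Cc a
  have hslit : ∀ x : Fin (3 + 1) → ℝ, x ∈ slit a → Cc a x ≤ 1 := fun x hx => by
    by_contra hcon
    exact ((one_lt_Cc_iff ha0 x).mp (not_le.mp hcon)) hx
  have houter : ∀ x : Fin (3 + 1) → ℝ, x ∈ outer → M ≤ Cc a x := fun x hx => by
    have e1 : 1 ≤ rr 0 x := by rw [rr_zero_eq]; exact hx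
    have e2 := (tt_le ha0 x).2.1
    rw [tt, div_le_one ha0] at e2
    rw [hM, Cc, le_div_iff₀ ha0, sub_mul, div_mul_cancel₀ _ ha0.ne']
    linarith
  refine ⟨fun x => eta4 C1 C2 (Cc a x), {x | Cc a x < C1}, {x | C2 < Cc a x}, ?_,
    isOpen_lt hcc continuous_const, isOpen_lt continuous_const hcc,
    fun x hx => lt_of_le_of_lt (hslit x hx) h1, fun x hx => lt_of_lt_of_le h2M (houter x hx),
    fun x hx => eta4_zero h12 (le_of_lt hx), fun x hx => eta4_one h12 (le_of_lt hx), ?_⟩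
  · rw [contDiff_iff_contDiffAt]
    intro x
    by_cases hx : x ∈ slit a
    · have hev : (fun x => eta4 C1 C2 (Cc a x)) =ᶠ[𝓝 x] fun _ => 0 := by
        have : ∀ᶠ y in 𝓝 x, Cc a y < C1 :=
          hcc.continuousAt.eventually (gt_mem_nhds (lt_of_le_of_lt (hslit x hx) h1))
        filter_upwards [this] with y hy using eta4_zero h12 hy.le
      exact contDiffAt_const.congr_of_eventuallyEq hev
    · exact (((eta4_contDiff C1 C2).of_le (by norm_num)).contDiffAt (x := Cc a x)).comp x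
        (Cc_contDiffAt4 ha0 hx)
  -- the integrand
  have hαc : ContinuousOn (fun p : ℝ × ℝ => α p.1 p.2) {p | 1 < p.1} := fun p hp =>
    (hα.deriv p.1 p.2 hp).continuousAt.continuousWithinAt
  have hms : MeasurableSet {p : ℝ × ℝ | 1 < p.1} :=
    (isOpen_lt continuous_const continuous_fst).measurableSet
  classical
  set A : ℝ × ℝ → ℝ := {p : ℝ × ℝ | 1 < p.1}.piecewise (fun p => α p.1 p.2) (fun _ => 0) with hA
  have hAm : Measurable A := hαc.measurable_piecewise continuousOn_const hms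
  have hAe : ∀ p : ℝ × ℝ, 1 < p.1 → A p = α p.1 p.2 := fun p hp =>
    Set.piecewise_eq_of_mem _ _ _ hp
  set f : ℝ × ℝ → ℝ := fun p => deriv (eta4 C1 C2) p.1 * (A p * (p.1 ^ 2 - 1)
    / ((a / 2) ^ 2 * (p.1 ^ 2 - p.2 ^ 2))) with hf
  have hfm : Measurable f := by
    have h0 : Measurable fun p : ℝ × ℝ => deriv (eta4 C1 C2) p.1 :=
      (eta4_deriv_cont C1 C2).measurable.comp measurable_fst
    exact h0.mul (((hAm.mul ((measurable_fst.pow_const 2).sub_const 1))).div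
      (((measurable_fst.pow_const 2).sub (measurable_snd.pow_const 2)).const_mul _))
  have hf0 : ∀ p : ℝ × ℝ, (p.1 < C1 ∨ C2 < p.1) → f p = 0 := fun p hp => by
    simp only [hf, eta4_deriv_zero h12 hp, zero_mul]
  have hring : MeasurableSet (ring (k := 3) a) := by
    refine MeasurableSet.diff ?_ (isClosed_slit a).measurableSet
    have : Continuous fun x : Fin (3 + 1) → ℝ => euc x := by
      unfold euc
      fun_prop
    exact (isOpen_lt this continuous_const).measurableSet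
  have e1 : ∫ x in ring (k := 3) a, ∑ i, pd (fun x => eta4 C1 C2 (Cc a x)) i x * fld a α β i x =
      ∫ x in ring (k := 3) a, f (Cc (k := 3) a x, tt a x) := by
    refine setIntegral_congr_fun hring fun x hx => ?_
    have hxs : x ∉ slit a := hx.2
    have hpd : ∀ i, pd (fun x => eta4 C1 C2 (Cc a x)) i x =
        deriv (eta4 C1 C2) (Cc a x) * dC a i x := fun i => by
      have h := hasDerivAt_Cc ha0 hxs i
      have h2 : HasDerivAt (eta4 C1 C2) (deriv (eta4 C1 C2) (Cc a x))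
          (Cc a (Function.update x i (x i))) := by
        rw [Function.update_eq_self]
        exact eta4_hasDerivAt C1 C2 _
      exact (h2.comp (x i) h).deriv
    have hxC : 1 < Cc a x := (one_lt_Cc_iff ha0 x).mpr hxs
    have hs : ∑ i, pd (fun x => eta4 C1 C2 (Cc a x)) i x * fld a α β i x =
        deriv (eta4 C1 C2) (Cc a x) * ∑ i, dC a i x * fld a α β i x := by
      rw [Finset.mul_sum]
      refine Finset.sum_congr rfl fun i _ => ?_
      rw [hpd i, mul_assoc]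
    simp only [hs, fld_dC ha0 hxs, rr_mul_rr ha0 x, hf]
    rw [hAe (Cc a x, tt a x) hxC]
  have e2 : ∫ x in ring (k := 3) a, f (Cc (k := 3) a x, tt a x) =
      ∫ x : Fin 4 → ℝ, f (Cc (k := 3) a x, tt a x) := by
    refine setIntegral_eq_integral_of_forall_compl_eq_zero fun x hx => ?_
    refine hf0 _ ?_
    by_cases hxs : x ∈ slit a
    · exact Or.inl (lt_of_le_of_lt (hslit x hxs) h1)
    · refine Or.inr (lt_of_lt_of_le h2M (houter x ?_))
      by_contra hcon
      have hlt : euc x < 1 := lt_of_not_ge hcon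
      exact hx ⟨hlt, hxs⟩
  set g : ℝ × ℝ → ℝ := fun q => deriv (eta4 C1 C2) q.1 * (Real.pi * a ^ 2 *
    ((q.1 ^ 2 - 1) * Real.sqrt (q.1 ^ 2 - 1))) * (Real.sqrt (1 - q.2 ^ 2) * α q.1 q.2) with hg
  have e3 : ∫ q in Ioi (1 : ℝ) ×ˢ Ioo (-1 : ℝ) 1,
        (4 * Real.pi * (a / 2) ^ 4 * (q.1 ^ 2 - q.2 ^ 2) *
          (Real.sqrt (q.1 ^ 2 - 1) * Real.sqrt (1 - q.2 ^ 2))) * f q =
      ∫ q in Ioi (1 : ℝ) ×ˢ Ioo (-1 : ℝ) 1, g q := by
    refine setIntegral_congr_fun (measurableSet_Ioi.prod measurableSet_Ioo) fun q hq => ?_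
    have hq1 : 1 < q.1 := hq.1
    have hq2 : -1 < q.2 ∧ q.2 < 1 := hq.2
    have hne : q.1 ^ 2 - q.2 ^ 2 ≠ 0 := by nlinarith [hq2.1, hq2.2, hq1]
    simp only [hf, hg]
    rw [hAe q hq1]
    field_simp
    try ring
  have hgi : IntegrableOn g (Ioi (1 : ℝ) ×ˢ Ioo (-1 : ℝ) 1) := by
    have hc : ContinuousOn g (Icc C1 C2 ×ˢ Icc (-1 : ℝ) 1) := by
      have h3 : Continuous fun q : ℝ × ℝ => deriv (eta4 C1 C2) q.1 :=
        (eta4_deriv_cont C1 C2).comp continuous_fst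
      have h4 : Continuous fun q : ℝ × ℝ =>
          Real.pi * a ^ 2 * ((q.1 ^ 2 - 1) * Real.sqrt (q.1 ^ 2 - 1)) := by fun_prop
      have h5 : Continuous fun q : ℝ × ℝ => Real.sqrt (1 - q.2 ^ 2) := by fun_prop
      exact ((h3.mul h4).continuousOn).mul (h5.continuousOn.mul
        (hαc.mono fun q hq => lt_of_lt_of_le h1 hq.1.1))
    refine (hc.integrableOn_compact (isCompact_Icc.prod isCompact_Icc)).of_forall_sdiff_eq_zero
      (measurableSet_Ioi.prod measurableSet_Ioo) fun q hq => ?_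
    have : q.1 < C1 ∨ C2 < q.1 := by
      by_contra hcon
      push Not at hcon
      exact hq.2 ⟨⟨hcon.1, hcon.2⟩, ⟨hq.1.2.1.le, hq.1.2.2.le⟩⟩
    simp only [hg, eta4_deriv_zero h12 this, zero_mul]
  have e4 : ∫ q in Ioi (1 : ℝ) ×ˢ Ioo (-1 : ℝ) 1, g q =
      ∫ C in Ioi (1 : ℝ), 2 * Real.pi ^ 2 * deriv (eta4 C1 C2) C := by
    rw [Measure.volume_eq_prod, setIntegral_prod _ (by rwa [Measure.volume_eq_prod] at hgi)]
    refine setIntegral_congr_fun measurableSet_Ioi fun C hC => ?_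
    have hC1' : (1 : ℝ) < C := hC
    simp only [hg]
    rw [integral_const_mul, ← integral_Ioc_eq_integral_Ioo,
      ← intervalIntegral.integral_of_le (by norm_num : (-1 : ℝ) ≤ 1), hflux C hC1']
    have hpos : 0 < C ^ 2 - 1 := by nlinarith
    have hs : Real.sqrt (C ^ 2 - 1) ≠ 0 := (Real.sqrt_pos.2 hpos).ne'
    have hne : C ^ 2 - 1 ≠ 0 := hpos.ne'
    field_simp
  rw [e1, e2, integral_Ct ha0 hfm, e3, e4, integral_const_mul, eta4_integral h1 h12, mul_one]

end Pool.Agent.Lib.MP_b8b490_an.Four
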