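import Mathlib

namespace Pool.Agent.Lib.MP_b8b490_an.Four

/-! ### The cell certificate: computable definitions -/

/-- `Ef y T = 1 + y ∑ e / 2²⁰ yᵐ Tⁿ`, the sum over the elements `(m, n, e)` of `EL` -/
def EL : List (ℕ × ℕ × ℤ) := [
  (0, 0, -1179648), (0, 1, 1843200), (0, 2, 5750784), (1, 0, 827392), (1, 1, -1692160),
  (1, 2, -1595376), (1, 3, 3773952), (1, 4, 7008768), (2, 0, -278784), (2, 1, -2006640),
  (2, 2, -794592), (2, 3, -2343744), (2, 4, 876096), (3, 0, 58564), (3, 1, 2698784),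
  (3, 2, -418176), (3, 3, -1812096), (3, 5, -39536640), (3, 6, 50319360), (4, 1, -937024),
  (4, 2, 937024), (4, 5, 22239360), (4, 6, -30705480), (4, 7, -70256160), (4, 8, 111702240),
  (5, 5, -9343620), (5, 6, -10263240), (5, 7, -14320800), (5, 8, 26282880), (6, 6, 27181440),
  (6, 7, -27181440), (7, 10, 372683025), (7, 11, -751526100), (7, 12, 406563300), (8, 11, -197121600),
  (8, 12, 197121600), (19, 21, -434683904), (19, 22, 465010688), (20, 21, 244509696), (20, 22, -188713152),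
  (20, 23, -868578048), (20, 24, 905538816), (21, 21, -102728032), (21, 22, -316338368), (21, 23, 27957504),
  (21, 24, 369607680), (22, 22, 382243840), (22, 23, -382243840), (23, 26, 8194895280), (23, 27, -13652383680),
  (23, 28, 5613416640), (24, 27, -5544115200), (24, 28, 5544115200), (39, 42, 45049213504), (39, 43, -57401810176),
  (39, 44, 12571873536), (40, 43, -38982553600), (40, 44, 38982553600)]

/-- `pm s m = ∫₀ˢ (1 - σ⁶)ᵐ dσ` -/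
def pm {K : Type} [Field K] (s : K) : ℕ → K
  | 0 => s
  | m + 1 => (s * (1 - s ^ 6) ^ (m + 1) + 6 * ((m : K) + 1) * pm s m) / (6 * ((m : K) + 1) + 1)

/-- `cm n = (4 / π) ∫₀¹ √(1 - t²) t²ⁿ dt` -/
def cm {K : Type} [Field K] : ℕ → K
  | 0 => 1
  | n + 1 => cm n * (2 * (n : K) + 1) / (2 * (n : K) + 4)

/-- the smallest `X` with `2⁴² ≤ X Y²` -/
def XX (Y : ℕ) : ℕ := (2 ^ 42 + Y ^ 2 - 1) / Y ^ 2

/-- the smallest `L` with `2²⁸ ≤ K L` -/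
def KK (K : ℕ) : ℕ := (2 ^ 28 + K - 1) / K

/-- the sum of `f Y K (t₁ ^ (2 n + 1) - t₀ ^ (2 n + 1))` over the cells `(t₁, Y, K)` in the
variable `t` (unit `1 / 1024`), starting from `t₀` -/
def SL (f : ℕ → ℕ → ℕ) (n : ℕ) : ℕ → List (ℕ × ℕ × ℕ) → ℕ
  | _, [] => 0
  | t0, (t1, Y, K) :: L => f Y K * (t1 ^ (2 * n + 1) - t0 ^ (2 * n + 1)) + SL f n t1 L

def fa (Y K : ℕ) : ℕ := (XX Y + 2 * Y) * (K + KK K)
def fb (Y K : ℕ) : ℕ := (XX Y + 2 * Y) * KK K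
def fc (Y K : ℕ) : ℕ := XX Y * (K + KK K)
def fd (Y K : ℕ) : ℕ := XX Y * KK K
def fe (Y K : ℕ) : ℕ := Y * (K + KK K)
def ff (Y K : ℕ) : ℕ := Y * KK K

/-- the sum of `f Y K ∫ t²ⁿ dt` over the cells -/
def mu (𝕜 : Type) [Field 𝕜] (f : ℕ → ℕ → ℕ) (n t0 : ℕ) (L : List (ℕ × ℕ × ℕ)) : 𝕜 :=
  (SL f n t0 L : 𝕜) / ((2 * (n : 𝕜) + 1) * 1024 ^ (2 * n + 1))

/-- the cells fill the interval from `t₀` to `1024`, `Y > 0` and `K > 0` -/
def okL : ℕ → List (ℕ × ℕ × ℕ) → Bool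
  | t0, [] => t0 == 1024
  | t0, (t1, Y, K) :: L => decide (t0 < t1) && (decide (0 < Y) && (decide (0 < K) && okL t1 L))

/-- `21361415 / 2²⁴ ≥ 4 / π`, divided by `3 · 2²⁹` -/
def cw {𝕜 : Type} [Field 𝕜] : 𝕜 := 21361415 / (2 ^ 24 * (3 * 2 ^ 29))

/-- the coefficient of the monomial of number `q` in a row -/
def wq {𝕜 : Type} [Field 𝕜] (L : List (ℕ × ℕ × ℕ)) (q : ℕ × ℕ × ℤ) : 𝕜 :=
  ((q.2.2 : 𝕜) / 2 ^ 20) * (mu 𝕜 fe q.2.1 0 L - mu 𝕜 ff (q.2.1 + 1) 0 L)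

/-- upper bound for the integral of `hh` over `[s₀, s₁]`, `s₁ < 1` -/
def rowV {𝕜 : Type} [Field 𝕜] (s0 s1 : 𝕜) (L : List (ℕ × ℕ × ℕ)) : 𝕜 :=
  3 / 2 * (cw * (mu 𝕜 fa 0 0 L - mu 𝕜 fb 1 0 L) - 1) *
      (1 / (1 - s0 ^ 6) + 1 / (1 - s1 ^ 6)) * (s1 - s0) -
    3 * cw * (mu 𝕜 fc 1 0 L - mu 𝕜 fd 2 0 L) * (s1 - s0) +
    6 * cw * (EL.map fun q => wq L q * (pm s1 q.1 - pm s0 q.1)).sum

/-- the last row `[s₀, 1]` with `X = Y = 1` and the exact weight -/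
def lastV {𝕜 : Type} [Field 𝕜] (s0 : 𝕜) : 𝕜 :=
  -(1 / 4) * (1 - s0) +
    2 * (EL.map fun q => ((q.2.2 : 𝕜) / 2 ^ 20) * cm q.2.1 * (pm 1 q.1 - pm s0 q.1)).sum

/-- the sum over a list of rows `(s₁, cells)`, starting from `s₀` (unit `1 / 1024`) -/
def totV (𝕜 : Type) [Field 𝕜] : ℕ → List (ℕ × List (ℕ × ℕ × ℕ)) → 𝕜
  | _, [] => 0
  | s0, (s1, L) :: R => rowV ((s0 : 𝕜) / 1024) ((s1 : 𝕜) / 1024) L + totV 𝕜 s1 R

/-- validity of a list of rows from `s₀` to `e` -/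
def okR (e : ℕ) : ℕ → List (ℕ × List (ℕ × ℕ × ℕ)) → Bool
  | s0, [] => s0 == e
  | s0, (s1, L) :: R => decide (s0 < s1) && (decide (s1 < 1024) && (okL 0 L &&
      (decide (9 * 2 ^ 83 + 21361415 * SL fb 1 0 L ≤ 21361415 * (3 * 2 ^ 20 * SL fa 0 0 L)) &&
        okR e s1 R)))

end Pool.Agent.Lib.MP_b8b490_an.Four
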