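import Pool.Agent.Lib.MP_b8b490_an.B2

open MeasureTheory Set Filter Topology
open scoped ENNReal

namespace Pool.Agent.Lib.MP_b8b490_an.Four

/-! ### The explicit field in `ℝ⁴`. With `w = (1 - t²)^(3/2)` the stream function is
`∫ √(1 - t²) - t w (a₀ y + a₁ y² + a₂ y t² + a₃ y⁴ t¹⁰ + a₄ y²⁰ t⁴²)`, `y = 1 / C²`. -/

/-- `(∂g/∂t) / √(1 - t²)` as a function of `y = 1 / C²` and `T = t²` -/
noncomputable def Af (y T : ℝ) : ℝ :=
  1 - 576 / 1024 * y * (1 - 4 * T) + 242 / 1024 * y ^ 2 * (1 - 4 * T) -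
    468 / 1024 * y * (3 * T - 6 * T ^ 2) -
    1755 / 1024 * y ^ 4 * (11 * T ^ 5 - 14 * T ^ 6) -
    4936 / 1024 * y ^ 20 * (43 * T ^ 21 - 46 * T ^ 22)

/-- `y ∂P/∂y` -/
noncomputable def Sf (y T : ℝ) : ℝ :=
  576 / 1024 * y - 2 * (242 / 1024) * y ^ 2 + 468 / 1024 * y * T +
    4 * (1755 / 1024) * y ^ 4 * T ^ 5 + 20 * (4936 / 1024) * y ^ 20 * T ^ 21

/-- the energy density -/
noncomputable def Ef (y T : ℝ) : ℝ := Af y T ^ 2 + 4 * T * (1 - T) * (1 - y) * Sf y T ^ 2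

noncomputable def al (a C t : ℝ) : ℝ :=
  Af (1 / C ^ 2) (t ^ 2) / ((a / 2) ^ 2 * ((C ^ 2 - 1) * Real.sqrt (C ^ 2 - 1)))

noncomputable def be (a C t : ℝ) : ℝ :=
  -(2 * t / (C * Real.sqrt (C ^ 2 - 1))) * Sf (1 / C ^ 2) (t ^ 2) / (a / 2) ^ 2

private noncomputable def D1_Ay (y T : ℝ) : ℝ :=
  -(576 / 1024 * (1 - 4 * T)) + 242 / 1024 * (2 * y) * (1 - 4 * T) -
    468 / 1024 * (3 * T - 6 * T ^ 2) -
    1755 / 1024 * (4 * y ^ 3) * (11 * T ^ 5 - 14 * T ^ 6) -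
    4936 / 1024 * (20 * y ^ 19) * (43 * T ^ 21 - 46 * T ^ 22)

private noncomputable def D1_ST (y T : ℝ) : ℝ :=
  468 / 1024 * y + 4 * (1755 / 1024) * y ^ 4 * (5 * T ^ 4) +
    20 * (4936 / 1024) * y ^ 20 * (21 * T ^ 20)

private theorem D1_hasAy (y T : ℝ) : HasDerivAt (fun y => Af y T) (D1_Ay y T) y := by
  have h1 := (hasDerivAt_id' y).mul_const (576 / 1024 * (1 - 4 * T))
  have h5 := (hasDerivAt_pow 2 y).mul_const (242 / 1024 * (1 - 4 * T))
  have h2 := (hasDerivAt_id' y).mul_const (468 / 1024 * (3 * T - 6 * T ^ 2))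
  have h3 := (hasDerivAt_pow 4 y).mul_const (1755 / 1024 * (11 * T ^ 5 - 14 * T ^ 6))
  have h4 := (hasDerivAt_pow 20 y).mul_const (4936 / 1024 * (43 * T ^ 21 - 46 * T ^ 22))
  have h := (((((hasDerivAt_const y (1 : ℝ)).sub h1).add h5).sub h2).sub h3).sub h4
  refine (h.congr_deriv ?_).congr_of_eventuallyEq ?_
  · unfold D1_Ay
    push_cast
    ring
  · refine Filter.Eventually.of_forall fun z => ?_
    simp only [Af, Pi.sub_apply, Pi.add_apply]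
    ring

private theorem D1_hasST (y T : ℝ) : HasDerivAt (fun T => Sf y T) (D1_ST y T) T := by
  have h2 := (hasDerivAt_id' T).mul_const (468 / 1024 * y)
  have h3 := (hasDerivAt_pow 5 T).mul_const (4 * (1755 / 1024) * y ^ 4)
  have h4 := (hasDerivAt_pow 21 T).mul_const (20 * (4936 / 1024) * y ^ 20)
  have h := (((hasDerivAt_const T (576 / 1024 * y - 2 * (242 / 1024) * y ^ 2)).add h2).add
    h3).add h4
  refine (h.congr_deriv ?_).congr_of_eventuallyEq ?_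
  · unfold D1_ST
    push_cast
    ring
  · refine Filter.Eventually.of_forall fun z => ?_
    simp only [Sf, Pi.add_apply]
    ring

private theorem D1_ident (y T : ℝ) :
    -(y * D1_Ay y T) = (Sf y T + 2 * T * D1_ST y T) * (1 - T) - 3 * T * Sf y T := by
  unfold D1_Ay D1_ST Sf
  ring

private theorem D1_c1 {f : ℝ → ℝ → ℝ}
    (hf : ∀ C t, 1 < C → ContDiffAt ℝ 2 (fun p : ℝ × ℝ => f p.1 p.2) (C, t)) :
    ∃ fC ft : ℝ → ℝ → ℝ, IsC1 f fC ft ∧
      (∀ C t, 1 < C → HasDerivAt (fun s => f s t) (fC C t) C) ∧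
      ∀ C t, 1 < C → HasDerivAt (fun s => f C s) (ft C t) t := by
  obtain ⟨F, hF⟩ : ∃ F : ℝ × ℝ → ℝ, F = fun p : ℝ × ℝ => f p.1 p.2 := ⟨_, rfl⟩
  rw [← hF] at hf
  have hd : ∀ C t, 1 < C → HasFDerivAt F (fderiv ℝ F (C, t)) (C, t) := fun C t hC =>
    ((hf C t hC).differentiableAt (by norm_num)).hasFDerivAt
  have hcont : ContinuousOn (fderiv ℝ F) {p | 1 < p.1} := by
    rintro ⟨C, t⟩ hC
    exact ((hf C t hC).fderiv_right (m := 1) (by norm_num)).continuousAt.continuousWithinAt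
  refine ⟨fun C t => fderiv ℝ F (C, t) (1, 0), fun C t => fderiv ℝ F (C, t) (0, 1), ⟨?_, ?_, ?_⟩,
    ?_, ?_⟩
  · intro C t hC
    rw [← hF]
    refine (hd C t hC).congr_fderiv ?_
    ext <;> simp
  · exact hcont.clm_apply continuousOn_const
  · exact hcont.clm_apply continuousOn_const
  · intro C t hC
    have h1 : HasDerivAt (fun s : ℝ => (s, t)) ((1 : ℝ), (0 : ℝ)) C :=
      (hasDerivAt_id' C).prodMk (hasDerivAt_const C t)
    have h2 := (hd C t hC).comp_hasDerivAt C h1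
    rw [hF] at h2 ⊢
    exact h2
  · intro C t hC
    have h1 : HasDerivAt (fun s : ℝ => (C, s)) ((0 : ℝ), (1 : ℝ)) t :=
      (hasDerivAt_const t C).prodMk (hasDerivAt_id' t)
    have h2 := (hd C t hC).comp_hasDerivAt t h1
    rw [hF] at h2 ⊢
    exact h2

private theorem D1_sqrt_smooth (C t : ℝ) (hC : 1 < C) :
    ContDiffAt ℝ 2 (fun p : ℝ × ℝ => Real.sqrt (p.1 ^ 2 - 1)) (C, t) := by
  have h1 : ContDiffAt ℝ 2 (fun p : ℝ × ℝ => p.1 ^ 2 - 1) (C, t) := by fun_prop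
  refine h1.sqrt ?_
  have : 0 < C ^ 2 - 1 := by nlinarith
  exact this.ne'

private theorem D1_al_smooth {a : ℝ} (ha : 0 < a) (C t : ℝ) (hC : 1 < C) :
    ContDiffAt ℝ 2 (fun p : ℝ × ℝ => al a p.1 p.2) (C, t) := by
  have hC0 : C ^ 2 ≠ 0 := by positivity
  have hpos : 0 < C ^ 2 - 1 := by nlinarith
  have hs : 0 < Real.sqrt (C ^ 2 - 1) := Real.sqrt_pos.2 hpos
  have hC1 : (a / 2) ^ 2 * ((C ^ 2 - 1) * Real.sqrt (C ^ 2 - 1)) ≠ 0 := by positivity
  have hy : ContDiffAt ℝ 2 (fun p : ℝ × ℝ => 1 / p.1 ^ 2) (C, t) :=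
    contDiffAt_const.div (contDiffAt_fst.pow 2) hC0
  have hden : ContDiffAt ℝ 2 (fun p : ℝ × ℝ =>
      (a / 2) ^ 2 * ((p.1 ^ 2 - 1) * Real.sqrt (p.1 ^ 2 - 1))) (C, t) :=
    contDiffAt_const.mul (ContDiffAt.mul (by fun_prop) (D1_sqrt_smooth C t hC))
  have hA : ContDiff ℝ 2 (fun q : ℝ × ℝ => Af q.1 q.2) := by
    unfold Af
    fun_prop
  have hT : ContDiffAt ℝ 2 (fun p : ℝ × ℝ => p.2 ^ 2) (C, t) := by fun_prop
  have hA' : ContDiffAt ℝ 2 (fun p : ℝ × ℝ => Af (1 / p.1 ^ 2) (p.2 ^ 2)) (C, t) :=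
    hA.contDiffAt.comp (C, t) (hy.prodMk hT)
  exact hA'.div hden hC1

private theorem D1_be_smooth {a : ℝ} (C t : ℝ) (hC : 1 < C) :
    ContDiffAt ℝ 2 (fun p : ℝ × ℝ => be a p.1 p.2) (C, t) := by
  have hC0 : C ^ 2 ≠ 0 := by positivity
  have hpos : 0 < C ^ 2 - 1 := by nlinarith
  have hs : 0 < Real.sqrt (C ^ 2 - 1) := Real.sqrt_pos.2 hpos
  have hC1 : C * Real.sqrt (C ^ 2 - 1) ≠ 0 := by positivity
  have hy : ContDiffAt ℝ 2 (fun p : ℝ × ℝ => 1 / p.1 ^ 2) (C, t) :=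
    contDiffAt_const.div (contDiffAt_fst.pow 2) hC0
  have hS : ContDiff ℝ 2 (fun q : ℝ × ℝ => Sf q.1 q.2) := by
    unfold Sf
    fun_prop
  have hT : ContDiffAt ℝ 2 (fun p : ℝ × ℝ => p.2 ^ 2) (C, t) := by fun_prop
  have hS' : ContDiffAt ℝ 2 (fun p : ℝ × ℝ => Sf (1 / p.1 ^ 2) (p.2 ^ 2)) (C, t) :=
    hS.contDiffAt.comp (C, t) (hy.prodMk hT)
  have h1 : ContDiffAt ℝ 2 (fun p : ℝ × ℝ => 2 * p.2 / (p.1 * Real.sqrt (p.1 ^ 2 - 1))) (C, t) :=
    (by fun_prop : ContDiffAt ℝ 2 (fun p : ℝ × ℝ => 2 * p.2) (C, t)).div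
      (contDiffAt_fst.mul (D1_sqrt_smooth C t hC)) hC1
  exact (h1.neg.mul hS').div_const _

/-- first derivatives of `al a`, `be a` -/
theorem exists_derivs {a : ℝ} (ha : 0 < a) :
    ∃ αC αt βC βt : ℝ → ℝ → ℝ, IsC1 (al a) αC αt ∧ IsC1 (be a) βC βt ∧
      ∀ C t, 1 < C → αC C t * (C ^ 2 - 1) + ((3 : ℕ) : ℝ) * C * al a C t +
        βt C t * (1 - t ^ 2) - ((3 : ℕ) : ℝ) * t * be a C t = 0 := by
  obtain ⟨αC, αt, hα, hαC, -⟩ := D1_c1 (D1_al_smooth ha)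
  obtain ⟨βC, βt, hβ, -, hβt⟩ := D1_c1 (f := be a) D1_be_smooth
  refine ⟨αC, αt, βC, βt, hα, hβ, fun C t hC => ?_⟩
  have hC0 : C ≠ 0 := by positivity
  have hpos : 0 < C ^ 2 - 1 := by nlinarith
  have hs : 0 < Real.sqrt (C ^ 2 - 1) := Real.sqrt_pos.2 hpos
  have hC1 : C ^ 2 - 1 ≠ 0 := hpos.ne'
  have hs0 : Real.sqrt (C ^ 2 - 1) ≠ 0 := hs.ne'
  have hss : Real.sqrt (C ^ 2 - 1) ^ 2 = C ^ 2 - 1 := Real.sq_sqrt hpos.le
  have hy : HasDerivAt (fun s : ℝ => 1 / s ^ 2) (-(2 / C ^ 3)) C := by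
    have h1 := (hasDerivAt_pow 2 C).inv (pow_ne_zero 2 hC0)
    refine (h1.congr_deriv ?_).congr_of_eventuallyEq ?_
    · push_cast
      field_simp
    · exact Filter.Eventually.of_forall fun z => by simp
  have hq : HasDerivAt (fun s : ℝ => s ^ 2 - 1) (2 * C) C := by
    have h1 := (hasDerivAt_pow 2 C).sub_const 1
    simpa using h1
  have hden : HasDerivAt (fun s : ℝ => (a / 2) ^ 2 * ((s ^ 2 - 1) * Real.sqrt (s ^ 2 - 1)))
      ((a / 2) ^ 2 * (2 * C * Real.sqrt (C ^ 2 - 1) +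
        (C ^ 2 - 1) * (2 * C / (2 * Real.sqrt (C ^ 2 - 1))))) C :=
    (hq.mul (hq.sqrt hC1)).const_mul _
  have hA : HasDerivAt (fun s : ℝ => Af (1 / s ^ 2) (t ^ 2))
      (D1_Ay (1 / C ^ 2) (t ^ 2) * (-(2 / C ^ 3))) C :=
    HasDerivAt.comp (h₂ := fun y => Af y (t ^ 2)) C (D1_hasAy (1 / C ^ 2) (t ^ 2)) hy
  have e1 := (hαC C t hC).unique (hA.div hden (by positivity))
  have hT : HasDerivAt (fun s : ℝ => s ^ 2) (2 * t) t := by
    simpa using hasDerivAt_pow 2 t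
  have hS : HasDerivAt (fun s : ℝ => Sf (1 / C ^ 2) (s ^ 2))
      (D1_ST (1 / C ^ 2) (t ^ 2) * (2 * t)) t :=
    HasDerivAt.comp (h₂ := fun T => Sf (1 / C ^ 2) T) t (D1_hasST (1 / C ^ 2) (t ^ 2)) hT
  have hlin : HasDerivAt (fun s : ℝ => -(2 * s / (C * Real.sqrt (C ^ 2 - 1))))
      (-(2 / (C * Real.sqrt (C ^ 2 - 1)))) t := by
    have h1 := (((hasDerivAt_id' t).const_mul 2).div_const (C * Real.sqrt (C ^ 2 - 1))).fun_neg
    simpa using h1
  have e2 := (hβt C t hC).unique ((hlin.mul hS).div_const ((a / 2) ^ 2))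
  have e3 := D1_ident (1 / C ^ 2) (t ^ 2)
  rw [e1, e2]
  unfold al be
  generalize D1_Ay (1 / C ^ 2) (t ^ 2) = X at *
  generalize D1_ST (1 / C ^ 2) (t ^ 2) = Z at *
  generalize Af (1 / C ^ 2) (t ^ 2) = V at *
  generalize Sf (1 / C ^ 2) (t ^ 2) = W at *
  generalize Real.sqrt (C ^ 2 - 1) = r at *
  have ha0 : a ≠ 0 := ha.ne'
  push_cast
  have e4 : X = -(C ^ 2 * ((W + 2 * t ^ 2 * Z) * (1 - t ^ 2) - 3 * t ^ 2 * W)) := by
    rw [← e3]
    field_simp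
  rw [e4, ← hss]
  field_simp
  ring

/-- the moments of the weight `√(1 - t²)` on `[0, 1]` -/
noncomputable def mom (l : ℕ) : ℝ := ∫ t in (0 : ℝ)..1, Real.sqrt (1 - t ^ 2) * (t ^ 2) ^ l

theorem mom_zero : mom 0 = Real.pi / 4 := by
  unfold mom
  simp only [pow_zero, mul_one]
  have hc : Continuous fun t : ℝ => Real.sqrt (1 - t ^ 2) := by fun_prop
  have h := integral_sqrt_one_sub_sq
  have hsplit : ∫ t in (-1 : ℝ)..1, Real.sqrt (1 - t ^ 2) =
      (∫ t in (-1 : ℝ)..0, Real.sqrt (1 - t ^ 2)) + ∫ t in (0 : ℝ)..1, Real.sqrt (1 - t ^ 2) :=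
    (intervalIntegral.integral_add_adjacent_intervals (hc.intervalIntegrable _ _)
      (hc.intervalIntegrable _ _)).symm
  have heven : ∫ t in (-1 : ℝ)..0, Real.sqrt (1 - t ^ 2) = ∫ t in (0 : ℝ)..1, Real.sqrt (1 - t ^ 2) := by
    have h1 : ∫ t in (0 : ℝ)..1, Real.sqrt (1 - (-t) ^ 2) =
        ∫ t in (-1 : ℝ)..(-0), Real.sqrt (1 - t ^ 2) :=
      intervalIntegral.integral_comp_neg (fun t => Real.sqrt (1 - t ^ 2))
    rw [neg_zero] at h1
    rw [← h1]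
    refine intervalIntegral.integral_congr fun t _ => ?_
    show Real.sqrt (1 - (-t) ^ 2) = Real.sqrt (1 - t ^ 2)
    rw [neg_sq]
  rw [hsplit, heven] at h
  linarith

theorem mom_succ (l : ℕ) : (2 * (l : ℝ) + 4) * mom (l + 1) = (2 * (l : ℝ) + 1) * mom l := by
  have hd : ∀ t ∈ Ioo (0 : ℝ) 1, HasDerivAt (fun t : ℝ => t ^ (2 * l + 1) *
      ((1 - t ^ 2) * Real.sqrt (1 - t ^ 2)))
      ((2 * (l : ℝ) + 1) * (Real.sqrt (1 - t ^ 2) * (t ^ 2) ^ l) -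
        (2 * (l : ℝ) + 4) * (Real.sqrt (1 - t ^ 2) * (t ^ 2) ^ (l + 1))) t := by
    intro t ht
    have hp : 0 < 1 - t ^ 2 := by nlinarith [ht.1, ht.2]
    have h1 : HasDerivAt (fun t : ℝ => 1 - t ^ 2) (-(2 * t)) t := by
      have := (hasDerivAt_pow 2 t).const_sub 1
      simpa using this
    have h2 := h1.fun_mul (h1.sqrt hp.ne')
    have h3 := (hasDerivAt_pow (2 * l + 1) t).fun_mul h2
    refine h3.congr_deriv ?_
    have hs : 0 < Real.sqrt (1 - t ^ 2) := Real.sqrt_pos.2 hp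
    have hss : Real.sqrt (1 - t ^ 2) ^ 2 = 1 - t ^ 2 := Real.sq_sqrt hp.le
    have e1 : (1 - t ^ 2) * (-(2 * t) / (2 * Real.sqrt (1 - t ^ 2))) =
        -(t * Real.sqrt (1 - t ^ 2)) := by
      field_simp
      rw [hss]
    rw [e1]
    have e2 : t ^ (2 * l + 1) = t * (t ^ 2) ^ l := by rw [pow_succ, pow_mul]; ring
    have e3 : t ^ (2 * l + 1 - 1) = (t ^ 2) ^ l := by rw [Nat.add_sub_cancel, pow_mul]
    rw [e2, e3, pow_succ]
    push_cast
    ring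
  have hcont : ContinuousOn (fun t : ℝ => t ^ (2 * l + 1) *
      ((1 - t ^ 2) * Real.sqrt (1 - t ^ 2))) (Icc 0 1) := by
    have : Continuous (fun t : ℝ => t ^ (2 * l + 1) *
      ((1 - t ^ 2) * Real.sqrt (1 - t ^ 2))) := by fun_prop
    exact this.continuousOn
  have c1 : Continuous fun t : ℝ => Real.sqrt (1 - t ^ 2) * (t ^ 2) ^ l := by fun_prop
  have c2 : Continuous fun t : ℝ => Real.sqrt (1 - t ^ 2) * (t ^ 2) ^ (l + 1) := by fun_prop
  have h := intervalIntegral.integral_eq_sub_of_hasDerivAt_of_le zero_le_one hcont hd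
    (((c1.const_mul _).sub (c2.const_mul _)).intervalIntegrable _ _)
  rw [intervalIntegral.integral_sub ((c1.const_mul _).intervalIntegrable _ _)
    ((c2.const_mul _).intervalIntegrable _ _), intervalIntegral.integral_const_mul,
    intervalIntegral.integral_const_mul] at h
  have h0 : (1 : ℝ) ^ (2 * l + 1) * ((1 - 1 ^ 2) * Real.sqrt (1 - 1 ^ 2)) -
      (0 : ℝ) ^ (2 * l + 1) * ((1 - 0 ^ 2) * Real.sqrt (1 - 0 ^ 2)) = 0 := by
    rw [zero_pow (Nat.succ_ne_zero _)]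
    ring
  rw [h0] at h
  unfold mom
  linarith

theorem al_flux {a : ℝ} (ha : 0 < a) {C : ℝ} (hC : 1 < C) :
    ∫ t in (-1 : ℝ)..1, Real.sqrt (1 - t ^ 2) * al a C t =
      2 * Real.pi / (a ^ 2 * ((C ^ 2 - 1) * Real.sqrt (C ^ 2 - 1))) := by
  have hpos : 0 < C ^ 2 - 1 := by nlinarith
  have hs : 0 < Real.sqrt (C ^ 2 - 1) := Real.sqrt_pos.2 hpos
  obtain ⟨y, hy⟩ : ∃ y : ℝ, y = 1 / C ^ 2 := ⟨_, rfl⟩
  have hAc : Continuous fun t : ℝ => Real.sqrt (1 - t ^ 2) * Af y (t ^ 2) := by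
    unfold Af
    fun_prop
  have hint : ∫ t in (-1 : ℝ)..1, Real.sqrt (1 - t ^ 2) * Af y (t ^ 2) = Real.pi / 2 := by
    have hsplit : ∫ t in (-1 : ℝ)..1, Real.sqrt (1 - t ^ 2) * Af y (t ^ 2) =
        (∫ t in (-1 : ℝ)..0, Real.sqrt (1 - t ^ 2) * Af y (t ^ 2)) +
          ∫ t in (0 : ℝ)..1, Real.sqrt (1 - t ^ 2) * Af y (t ^ 2) :=
      (intervalIntegral.integral_add_adjacent_intervals (hAc.intervalIntegrable _ _)
        (hAc.intervalIntegrable _ _)).symm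
    have heven : ∫ t in (-1 : ℝ)..0, Real.sqrt (1 - t ^ 2) * Af y (t ^ 2) =
        ∫ t in (0 : ℝ)..1, Real.sqrt (1 - t ^ 2) * Af y (t ^ 2) := by
      have h1 : ∫ t in (0 : ℝ)..1, Real.sqrt (1 - (-t) ^ 2) * Af y ((-t) ^ 2) =
          ∫ t in (-1 : ℝ)..(-0), Real.sqrt (1 - t ^ 2) * Af y (t ^ 2) :=
        intervalIntegral.integral_comp_neg (fun t => Real.sqrt (1 - t ^ 2) * Af y (t ^ 2))
      rw [neg_zero] at h1
      rw [← h1]
      refine intervalIntegral.integral_congr fun t _ => ?_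
      show Real.sqrt (1 - (-t) ^ 2) * Af y ((-t) ^ 2) = Real.sqrt (1 - t ^ 2) * Af y (t ^ 2)
      rw [neg_sq]
    have h01 : ∫ t in (0 : ℝ)..1, Real.sqrt (1 - t ^ 2) * Af y (t ^ 2) =
        mom 0 - 576 / 1024 * y * (mom 0 - 4 * mom 1) + 242 / 1024 * y ^ 2 * (mom 0 - 4 * mom 1) -
          468 / 1024 * y * (3 * mom 1 - 6 * mom 2) -
          1755 / 1024 * y ^ 4 * (11 * mom 5 - 14 * mom 6) -
          4936 / 1024 * y ^ 20 * (43 * mom 21 - 46 * mom 22) := by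
      have hc : ∀ l : ℕ, IntervalIntegrable (fun t : ℝ => Real.sqrt (1 - t ^ 2) * (t ^ 2) ^ l)
          volume 0 1 := fun l => by
        have : Continuous (fun t : ℝ => Real.sqrt (1 - t ^ 2) * (t ^ 2) ^ l) := by fun_prop
        exact this.intervalIntegrable _ _
      have e : ∀ t : ℝ, Real.sqrt (1 - t ^ 2) * Af y (t ^ 2) =
          (1 - 576 / 1024 * y + 242 / 1024 * y ^ 2) * (Real.sqrt (1 - t ^ 2) * (t ^ 2) ^ 0) +
          (4 * (576 / 1024) * y - 4 * (242 / 1024) * y ^ 2 - 3 * (468 / 1024) * y) *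
            (Real.sqrt (1 - t ^ 2) * (t ^ 2) ^ 1) +
          6 * (468 / 1024) * y * (Real.sqrt (1 - t ^ 2) * (t ^ 2) ^ 2) +
          -(11 * (1755 / 1024) * y ^ 4) * (Real.sqrt (1 - t ^ 2) * (t ^ 2) ^ 5) +
          14 * (1755 / 1024) * y ^ 4 * (Real.sqrt (1 - t ^ 2) * (t ^ 2) ^ 6) +
          -(43 * (4936 / 1024) * y ^ 20) * (Real.sqrt (1 - t ^ 2) * (t ^ 2) ^ 21) +
          46 * (4936 / 1024) * y ^ 20 * (Real.sqrt (1 - t ^ 2) * (t ^ 2) ^ 22) := by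
        intro t
        unfold Af
        ring
      simp only [e]
      rw [intervalIntegral.integral_add (((((((hc 0).const_mul _).add ((hc 1).const_mul _)).add
          ((hc 2).const_mul _)).add ((hc 5).const_mul _)).add ((hc 6).const_mul _)).add
          ((hc 21).const_mul _)) ((hc 22).const_mul _),
        intervalIntegral.integral_add ((((((hc 0).const_mul _).add ((hc 1).const_mul _)).add
          ((hc 2).const_mul _)).add ((hc 5).const_mul _)).add ((hc 6).const_mul _))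
          ((hc 21).const_mul _),
        intervalIntegral.integral_add (((((hc 0).const_mul _).add ((hc 1).const_mul _)).add
          ((hc 2).const_mul _)).add ((hc 5).const_mul _)) ((hc 6).const_mul _),
        intervalIntegral.integral_add ((((hc 0).const_mul _).add ((hc 1).const_mul _)).add
          ((hc 2).const_mul _)) ((hc 5).const_mul _),
        intervalIntegral.integral_add (((hc 0).const_mul _).add ((hc 1).const_mul _))
          ((hc 2).const_mul _),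
        intervalIntegral.integral_add ((hc 0).const_mul _) ((hc 1).const_mul _)]
      simp only [intervalIntegral.integral_const_mul]
      unfold mom
      ring
    have m0 := mom_succ 0
    have m1 := mom_succ 1
    have m5 := mom_succ 5
    have m21 := mom_succ 21
    have z := mom_zero
    norm_num at m0 m1 m5 m21
    have k0 : mom 0 - 4 * mom 1 = 0 := by linarith
    have k1 : 3 * mom 1 - 6 * mom 2 = 0 := by linarith
    have k5 : 11 * mom 5 - 14 * mom 6 = 0 := by linarith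
    have k21 : 43 * mom 21 - 46 * mom 22 = 0 := by linarith
    rw [hsplit, heven, h01, k0, k1, k5, k21, z]
    ring
  have h1 : ∀ t, Real.sqrt (1 - t ^ 2) * al a C t = Real.sqrt (1 - t ^ 2) * Af y (t ^ 2) /
      ((a / 2) ^ 2 * ((C ^ 2 - 1) * Real.sqrt (C ^ 2 - 1))) := fun t => by
    unfold al
    rw [hy]
    ring
  simp only [h1]
  rw [intervalIntegral.integral_div, hint]
  have ha0 : a ≠ 0 := ha.ne'
  field_simp

theorem al_be_energy {a : ℝ} (ha : 0 < a) {C t : ℝ} (hC : 1 < C) :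
    al a C t ^ 2 * (C ^ 2 - 1) + be a C t ^ 2 * (1 - t ^ 2) =
      Ef (1 / C ^ 2) (t ^ 2) / ((a / 2) ^ 4 * (C ^ 2 - 1) ^ 2) := by
  have hC0 : C ≠ 0 := by positivity
  have hpos : 0 < C ^ 2 - 1 := by nlinarith
  have hs : 0 < Real.sqrt (C ^ 2 - 1) := Real.sqrt_pos.2 hpos
  have hss : C ^ 2 - 1 = Real.sqrt (C ^ 2 - 1) ^ 2 := (Real.sq_sqrt hpos.le).symm
  have ha0 : a ≠ 0 := ha.ne'
  unfold al be Ef
  generalize Af (1 / C ^ 2) (t ^ 2) = V
  generalize Sf (1 / C ^ 2) (t ^ 2) = W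
  have e : 1 - 1 / C ^ 2 = (C ^ 2 - 1) / C ^ 2 := by field_simp
  rw [e]
  generalize Real.sqrt (C ^ 2 - 1) = r at *
  rw [hss]
  field_simp
  ring

end Pool.Agent.Lib.MP_b8b490_an.Four
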