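import Pool.Agent.Lib.MP_b8b490_an.Four.D2

open MeasureTheory Set Filter Topology
open scoped ENNReal

namespace Pool.Agent.Lib.MP_b8b490_an.Four

/-- the regularised integrand -/
noncomputable def hh (σ : ℝ) : ℝ := 3 / (1 - σ ^ 6) * (G0 σ - 1)

/-- the arctangent part of the primitive of `3 / (1 - σ⁶)` -/
noncomputable def aa (s : ℝ) : ℝ :=
  Real.sqrt 3 / 2 * (Real.arctan ((2 * s + 1) / Real.sqrt 3) +
    Real.arctan ((2 * s - 1) / Real.sqrt 3))

private theorem D3_pos {s : ℝ} (h0 : 0 ≤ s) (h1 : s < 1) {x : ℝ} (hx : x ∈ Set.uIcc 0 s) :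
    0 ≤ x ∧ x < 1 ∧ 0 < 1 - x ^ 6 := by
  rw [Set.uIcc_of_le h0] at hx
  have hx1 : x < 1 := lt_of_le_of_lt hx.2 h1
  have : x ^ 6 < 1 := pow_lt_one₀ hx.1 hx1 (by norm_num)
  exact ⟨hx.1, hx1, by linarith⟩

private theorem D3_cont {s : ℝ} (h0 : 0 ≤ s) (h1 : s < 1) :
    ContinuousOn (fun σ : ℝ => 3 / (1 - σ ^ 6)) (Set.uIcc 0 s) := by
  refine ContinuousOn.div continuousOn_const (by fun_prop) ?_
  intro x hx
  exact (D3_pos h0 h1 hx).2.2.ne'

private theorem D3_arctan (x c : ℝ) : HasDerivAt (fun s : ℝ => Real.arctan ((2 * s + c) / Real.sqrt 3))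
    (1 / (1 + ((2 * x + c) / Real.sqrt 3) ^ 2) * (2 / Real.sqrt 3)) x := by
  have h1 : HasDerivAt (fun s : ℝ => (2 * s + c) / Real.sqrt 3) (2 / Real.sqrt 3) x := by
    have := (((hasDerivAt_id' x).const_mul 2).add_const c).div_const (Real.sqrt 3)
    simpa using this
  exact h1.arctan

/-- `3 / (1 - σ⁶) = 1 / (1 - σ²) + (σ² + 2) / (1 + σ² + σ⁴)` -/
theorem integral_three_div {s : ℝ} (h0 : 0 ≤ s) (h1 : s < 1) :
    ∫ σ in (0 : ℝ)..s, 3 / (1 - σ ^ 6) =
      Real.log (1 + s) + 3 / 4 * Real.log (1 + s + s ^ 2) + 1 / 4 * Real.log (1 - s + s ^ 2) -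
        Real.log (1 - s ^ 6) / 2 + aa s := by
  have h3 : 0 < Real.sqrt 3 := Real.sqrt_pos.2 (by norm_num)
  have hss : Real.sqrt 3 ^ 2 = 3 := Real.sq_sqrt (by norm_num)
  have hd : ∀ x ∈ Set.uIcc 0 s, HasDerivAt (fun σ : ℝ => Real.log (1 + σ) +
      3 / 4 * Real.log (1 + σ + σ ^ 2) + 1 / 4 * Real.log (1 - σ + σ ^ 2) -
      Real.log (1 - σ ^ 6) / 2 + aa σ) (3 / (1 - x ^ 6)) x := by
    intro x hx
    obtain ⟨hx0, hx1, hx2⟩ := D3_pos h0 h1 hx
    have a1 : (1 + x) ≠ 0 := by positivity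
    have a2 : (1 + x + x ^ 2) ≠ 0 := by positivity
    have a3 : (1 - x + x ^ 2) ≠ 0 := by
      have : 0 < 1 - x + x ^ 2 := by nlinarith [sq_nonneg (x - 1 / 2)]
      exact this.ne'
    have d1 : HasDerivAt (fun σ : ℝ => Real.log (1 + σ)) (1 / (1 + x)) x := by
      have := ((hasDerivAt_id x).const_add 1).log a1
      simpa using this
    have d2 : HasDerivAt (fun σ : ℝ => Real.log (1 + σ + σ ^ 2))
        ((1 + 2 * x) / (1 + x + x ^ 2)) x := by
      have h : HasDerivAt (fun σ : ℝ => 1 + σ + σ ^ 2) (1 + 2 * x) x := by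
        have := ((hasDerivAt_id' x).const_add 1).fun_add (hasDerivAt_pow 2 x)
        simpa using this
      exact h.log a2
    have d3 : HasDerivAt (fun σ : ℝ => Real.log (1 - σ + σ ^ 2))
        ((-1 + 2 * x) / (1 - x + x ^ 2)) x := by
      have h : HasDerivAt (fun σ : ℝ => 1 - σ + σ ^ 2) (-1 + 2 * x) x := by
        have := ((hasDerivAt_id' x).const_sub 1).fun_add (hasDerivAt_pow 2 x)
        simpa using this
      exact h.log a3
    have d4 : HasDerivAt (fun σ : ℝ => Real.log (1 - σ ^ 6)) (-(6 * x ^ 5) / (1 - x ^ 6)) x := by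
      have := ((hasDerivAt_pow 6 x).const_sub 1).log hx2.ne'
      simpa using this
    have d5 := D3_arctan x 1
    have d6 : HasDerivAt (fun s : ℝ => Real.arctan ((2 * s - 1) / Real.sqrt 3))
        (1 / (1 + ((2 * x - 1) / Real.sqrt 3) ^ 2) * (2 / Real.sqrt 3)) x := by
      have := D3_arctan x (-1)
      simpa only [← sub_eq_add_neg] using this
    have d7 := (d5.fun_add d6).const_mul (Real.sqrt 3 / 2)
    have := ((((d1.fun_add (d2.const_mul (3 / 4))).fun_add (d3.const_mul (1 / 4))).fun_sub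
      (d4.div_const 2)).fun_add d7)
    refine this.congr_deriv ?_
    have e5 : 1 / (1 + ((2 * x + 1) / Real.sqrt 3) ^ 2) * (2 / Real.sqrt 3) =
        3 / (4 * (1 + x + x ^ 2)) * (2 / Real.sqrt 3) := by
      congr 1
      rw [div_pow, hss]
      field_simp
      ring
    have e6 : 1 / (1 + ((2 * x - 1) / Real.sqrt 3) ^ 2) * (2 / Real.sqrt 3) =
        3 / (4 * (1 - x + x ^ 2)) * (2 / Real.sqrt 3) := by
      congr 1
      rw [div_pow, hss]
      field_simp
      ring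
    rw [e5, e6]
    have e : 1 - x ^ 6 = (1 - x) * (1 + x) * (1 + x + x ^ 2) * (1 - x + x ^ 2) := by ring
    have a4 : (1 - x) ≠ 0 := by linarith [hx1] |> ne_of_gt
    rw [e]
    field_simp
    ring
  rw [intervalIntegral.integral_eq_sub_of_hasDerivAt hd (D3_cont h0 h1).intervalIntegrable]
  have z : aa 0 = 0 := by
    unfold aa
    have : (2 * (0 : ℝ) - 1) / Real.sqrt 3 = -((2 * 0 + 1) / Real.sqrt 3) := by ring
    rw [this, Real.arctan_neg]
    ring
  rw [z]
  simp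

theorem integral_split {s : ℝ} (h0 : 0 ≤ s) (h1 : s < 1) :
    ∫ σ in (0 : ℝ)..s, 3 / (1 - σ ^ 6) * G0 σ =
      Real.log (1 + s) + 3 / 4 * Real.log (1 + s + s ^ 2) + 1 / 4 * Real.log (1 - s + s ^ 2) -
        Real.log (1 - s ^ 6) / 2 + aa s +
        ∫ σ in (0 : ℝ)..s, hh σ := by
  have hc : ContinuousOn hh (Set.uIcc 0 s) :=
    (D3_cont h0 h1).mul (continuous_G0.sub continuous_const).continuousOn
  rw [← integral_three_div h0 h1,
    ← intervalIntegral.integral_add (D3_cont h0 h1).intervalIntegrable hc.intervalIntegrable]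
  refine intervalIntegral.integral_congr ?_
  intro x _
  simp only [hh]
  ring

/-- `aa s ≤ √3 π / 4` for `s ≤ 1` -/
theorem aa_le {s : ℝ} (h1 : s ≤ 1) : aa s ≤ Real.sqrt 3 * Real.pi / 4 := by
  have h3 : 0 < Real.sqrt 3 := Real.sqrt_pos.2 (by norm_num)
  have hss : Real.sqrt 3 ^ 2 = 3 := Real.sq_sqrt (by norm_num)
  have e1 : Real.arctan ((2 * s + 1) / Real.sqrt 3) ≤ Real.pi / 3 := by
    rw [← Real.arctan_sqrt_three]
    refine Real.arctan_strictMono.monotone ?_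
    rw [div_le_iff₀ h3]
    nlinarith
  have e2 : Real.arctan ((2 * s - 1) / Real.sqrt 3) ≤ Real.pi / 6 := by
    rw [← Real.arctan_inv_sqrt_three, ← one_div]
    refine Real.arctan_strictMono.monotone ?_
    exact div_le_div_of_nonneg_right (by linarith) h3.le
  unfold aa
  have : Real.arctan ((2 * s + 1) / Real.sqrt 3) + Real.arctan ((2 * s - 1) / Real.sqrt 3) ≤
      Real.pi / 2 := by linarith
  have h4 := mul_le_mul_of_nonneg_left this (by positivity : 0 ≤ Real.sqrt 3 / 2)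
  linarith

end Pool.Agent.Lib.MP_b8b490_an.Four
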