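import Pool.Agent.Lib.MP_b8b490_an.Four.D3
import Pool.Agent.Lib.MP_b8b490_an.Four.CertDefs

open MeasureTheory Set Filter Topology
open scoped ENNReal

namespace Pool.Agent.Lib.MP_b8b490_an.Four

/-! ### Pointwise facts for the certificate -/

/-- the monomials of `Ef` -/
theorem Ef_eq (y T : ℝ) : Ef y T =
    1 + y * (EL.map fun q => ((q.2.2 : ℝ) / 2 ^ 20) * y ^ q.1 * T ^ q.2.1).sum := by
  simp only [EL, List.map_cons, List.map_nil, List.sum_cons, List.sum_nil]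
  unfold Ef Af Sf
  push_cast
  ring

private theorem D4a_hasDerivAt (m : ℕ) (s : ℝ) :
    HasDerivAt (fun s : ℝ => pm s m) ((1 - s ^ 6) ^ m) s := by
  induction m with
  | zero => simpa [pm] using hasDerivAt_id' s
  | succ m ih =>
    have h1 : HasDerivAt (fun s : ℝ => 1 - s ^ 6) (-(6 * s ^ 5)) s := by
      have := (hasDerivAt_pow 6 s).const_sub 1
      simpa using this
    have h2 : HasDerivAt (fun s : ℝ => (1 - s ^ 6) ^ (m + 1))
        (((m : ℝ) + 1) * (1 - s ^ 6) ^ m * (-(6 * s ^ 5))) s := by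
      have := h1.fun_pow (m + 1)
      simpa using this
    have h3 := (((hasDerivAt_id' s).fun_mul h2).fun_add
      (ih.const_mul (6 * ((m : ℝ) + 1)))).div_const (6 * ((m : ℝ) + 1) + 1)
    have e : (fun s : ℝ => pm s (m + 1)) = fun s : ℝ =>
        (s * (1 - s ^ 6) ^ (m + 1) + 6 * ((m : ℝ) + 1) * pm s m) / (6 * ((m : ℝ) + 1) + 1) := by
      funext s
      rfl
    rw [e]
    refine h3.congr_deriv ?_
    have hm : (6 * ((m : ℝ) + 1) + 1) ≠ 0 := by positivity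
    rw [div_eq_iff hm]
    ring

/-- the derivative of `pm s (m + 1)` is `(1 - s⁶) ^ (m + 1)` -/
theorem integral_pm (m : ℕ) (s0 s1 : ℝ) :
    ∫ σ in s0..s1, (1 - σ ^ 6) ^ m = pm s1 m - pm s0 m := by
  have hc : Continuous fun σ : ℝ => (1 - σ ^ 6) ^ m := by fun_prop
  exact intervalIntegral.integral_eq_sub_of_hasDerivAt (fun s _ => D4a_hasDerivAt m s)
    (hc.intervalIntegrable _ _)

/-- the moments -/
theorem mom_eq (n : ℕ) : mom n = Real.pi / 4 * cm n := by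
  induction n with
  | zero =>
    rw [mom_zero]
    simp [cm]
  | succ n ih =>
    have h := mom_succ n
    have h4 : (2 * (n : ℝ) + 4) ≠ 0 := by positivity
    simp only [cm]
    rw [ih] at h
    field_simp
    field_simp at h
    linarith

theorem XX_spec {Y : ℕ} (hY : 0 < Y) : 2 ^ 42 ≤ XX Y * Y ^ 2 := by
  unfold XX
  have h3 : 0 < Y ^ 2 := by positivity
  generalize Y ^ 2 = c at h3 ⊢
  have h1 := Nat.div_add_mod (2 ^ 42 + c - 1) c
  have h2 := Nat.mod_lt (2 ^ 42 + c - 1) h3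
  rw [mul_comm]
  omega

theorem KK_spec {K : ℕ} (hK : 0 < K) : 2 ^ 28 ≤ K * KK K := by
  unfold KK
  have h1 := Nat.div_add_mod (2 ^ 28 + K - 1) K
  have h2 := Nat.mod_lt (2 ^ 28 + K - 1) hK
  omega

/-- the weight: `√(1 - T) ≤ (κ + κ' (1 - T)) / 2` if `1 ≤ κ κ'` -/
theorem weight_le {T κ κ' : ℝ} (hT : T ≤ 1) (hκ : 0 < κ) (hκ' : 0 < κ') (h : 1 ≤ κ * κ') :
    Real.sqrt (1 - T) ≤ (κ + κ' * (1 - T)) / 2 := by
  have h0 : 0 ≤ 1 - T := by linarith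
  rw [Real.sqrt_le_left (by positivity)]
  nlinarith [sq_nonneg (κ - κ' * (1 - T)), mul_nonneg (sub_nonneg.2 h) h0]

/-- weighted arithmetic geometric mean inequality -/
theorem H0_le {σ t X Y κ κ' : ℝ} (h0 : 0 ≤ σ) (h1 : σ ≤ 1) (ht0 : 0 ≤ t) (ht1 : t ≤ 1)
    (hX : 0 < X) (hY : 0 < Y) (hXY : 1 ≤ X * Y ^ 2) (hκ : 0 < κ) (hκ' : 0 < κ')
    (hκκ : 1 ≤ κ * κ') :
    H0 σ t ≤ (κ + κ' * (1 - t ^ 2)) / 2 *
      (X / 3 * (1 - t ^ 2 * (1 - σ ^ 6)) + 2 * Y / 3 * Ef (1 - σ ^ 6) (t ^ 2)) := by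
  have hs4 : σ ^ 6 ≤ 1 := pow_le_one₀ h0 h1
  have hs40 : 0 ≤ σ ^ 6 := by positivity
  have ht2 : t ^ 2 ≤ 1 := pow_le_one₀ ht0 ht1
  have ht20 : 0 ≤ t ^ 2 := by positivity
  have hQ : 0 ≤ 1 - t ^ 2 * (1 - σ ^ 6) := by nlinarith
  have hE : 0 ≤ Ef (1 - σ ^ 6) (t ^ 2) := Ef_nonneg (by linarith) ht20 ht2
  unfold H0
  set Q := 1 - t ^ 2 * (1 - σ ^ 6) with hQd
  set E := Ef (1 - σ ^ 6) (t ^ 2) with hEd
  have key : (1 : ℝ) ≤ X ^ ((1 : ℝ) / 3) * Y ^ ((2 : ℝ) / 3) := by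
    have e1 : Y ^ ((2 : ℝ) / 3) = (Y ^ 2) ^ ((1 : ℝ) / 3) := by
      rw [← Real.rpow_natCast Y 2, ← Real.rpow_mul hY.le]
      norm_num
    rw [e1, ← Real.mul_rpow hX.le (by positivity)]
    exact Real.one_le_rpow hXY (by norm_num)
  have h3 := Real.geom_mean_le_arith_mean2_weighted (w₁ := 1 / 3) (w₂ := 2 / 3)
    (p₁ := Q * X) (p₂ := E * Y) (by norm_num) (by norm_num) (by positivity) (by positivity)
    (by norm_num)
  rw [Real.mul_rpow hQ hX.le, Real.mul_rpow hE hY.le] at h3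
  have h4 : 0 ≤ Q ^ ((1 : ℝ) / 3) * E ^ ((2 : ℝ) / 3) := by positivity
  have h5 : Q ^ ((1 : ℝ) / 3) * E ^ ((2 : ℝ) / 3) ≤ X / 3 * Q + 2 * Y / 3 * E :=
    calc Q ^ ((1 : ℝ) / 3) * E ^ ((2 : ℝ) / 3)
      ≤ Q ^ ((1 : ℝ) / 3) * E ^ ((2 : ℝ) / 3) * (X ^ ((1 : ℝ) / 3) * Y ^ ((2 : ℝ) / 3)) :=
        le_mul_of_one_le_right h4 key
    _ = Q ^ ((1 : ℝ) / 3) * X ^ ((1 : ℝ) / 3) * (E ^ ((2 : ℝ) / 3) * Y ^ ((2 : ℝ) / 3)) := by ring
    _ ≤ 1 / 3 * (Q * X) + 2 / 3 * (E * Y) := h3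
    _ = X / 3 * Q + 2 * Y / 3 * E := by ring
  have h6 := weight_le ht2 hκ hκ' hκκ
  have h7 : 0 ≤ (κ + κ' * (1 - t ^ 2)) / 2 := (Real.sqrt_nonneg _).trans h6
  exact mul_le_mul h6 h5 h4 h7

/-- the same with the exact weight and `X = Y = 1` -/
theorem H0_le_one {σ t : ℝ} (h0 : 0 ≤ σ) (h1 : σ ≤ 1) (ht0 : 0 ≤ t) (ht1 : t ≤ 1) :
    H0 σ t ≤ Real.sqrt (1 - t ^ 2) *
      (1 / 3 * (1 - t ^ 2 * (1 - σ ^ 6)) + 2 / 3 * Ef (1 - σ ^ 6) (t ^ 2)) := by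
  have hs4 : σ ^ 6 ≤ 1 := pow_le_one₀ h0 h1
  have hs40 : 0 ≤ σ ^ 6 := by positivity
  have ht2 : t ^ 2 ≤ 1 := pow_le_one₀ ht0 ht1
  have ht20 : 0 ≤ t ^ 2 := by positivity
  have hQ : 0 ≤ 1 - t ^ 2 * (1 - σ ^ 6) := by nlinarith
  have hE : 0 ≤ Ef (1 - σ ^ 6) (t ^ 2) := Ef_nonneg (by linarith) ht20 ht2
  unfold H0
  have h3 := Real.geom_mean_le_arith_mean2_weighted (w₁ := 1 / 3) (w₂ := 2 / 3)
    (p₁ := 1 - t ^ 2 * (1 - σ ^ 6)) (p₂ := Ef (1 - σ ^ 6) (t ^ 2)) (by norm_num) (by norm_num)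
    hQ hE (by norm_num)
  exact mul_le_mul_of_nonneg_left h3 (Real.sqrt_nonneg _)

/-- the function `1 / (1 - σ⁶)` is convex: trapezoidal rule -/
theorem integral_inv_le {s0 s1 : ℝ} (h0 : 0 ≤ s0) (h01 : s0 ≤ s1) (h1 : s1 < 1) :
    ∫ σ in s0..s1, 1 / (1 - σ ^ 6) ≤ (1 / (1 - s0 ^ 6) + 1 / (1 - s1 ^ 6)) / 2 * (s1 - s0) := by
  rcases h01.eq_or_lt with h | hlt
  · rw [h]; simp
  have hpos : ∀ σ ∈ Icc s0 s1, 0 < 1 - σ ^ 6 := by
    intro σ hσ
    have : σ ^ 6 < 1 := pow_lt_one₀ (h0.trans hσ.1) (hσ.2.trans_lt h1) (by norm_num)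
    linarith
  have hh : 0 < s1 - s0 := by linarith
  set f0 := 1 / (1 - s0 ^ 6) with hf0
  set f1 := 1 / (1 - s1 ^ 6) with hf1
  set k := (f1 - f0) / (s1 - s0) with hk
  have hu := hpos s0 ⟨le_refl _, h01⟩
  have hv := hpos s1 ⟨h01, le_refl _⟩
  have hpt : ∀ σ ∈ Icc s0 s1, 1 / (1 - σ ^ 6) ≤ f0 + (σ - s0) * k := by
    intro σ hσ
    set b := (σ - s0) / (s1 - s0) with hb
    have hb0 : 0 ≤ b := div_nonneg (by linarith [hσ.1]) hh.le
    have hb1 : b ≤ 1 := by rw [hb, div_le_one hh]; linarith [hσ.2]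
    have hσe : σ = (1 - b) * s0 + b * s1 := by
      rw [hb]; field_simp; ring
    have hconv : σ ^ 6 ≤ (1 - b) * s0 ^ 6 + b * s1 ^ 6 := by
      have hc := (Even.convexOn_pow (n := 6) (by decide) : ConvexOn ℝ univ fun x : ℝ => x ^ 6)
      have := hc.2 (mem_univ s0) (mem_univ s1) (show (0 : ℝ) ≤ 1 - b by linarith) hb0 (by ring)
      simp only [smul_eq_mul] at this
      rw [hσe]
      exact this
    have hge : (1 - b) * (1 - s0 ^ 6) + b * (1 - s1 ^ 6) ≤ 1 - σ ^ 6 := by linarith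
    have hmid : 0 < (1 - b) * (1 - s0 ^ 6) + b * (1 - s1 ^ 6) := by
      rcases hb0.eq_or_lt with h | h
      · rw [← h]; linarith
      · have : 0 ≤ (1 - b) * (1 - s0 ^ 6) := mul_nonneg (by linarith) hu.le
        have : 0 < b * (1 - s1 ^ 6) := mul_pos h hv
        linarith
    have e1 : 1 / (1 - σ ^ 6) ≤ 1 / ((1 - b) * (1 - s0 ^ 6) + b * (1 - s1 ^ 6)) :=
      one_div_le_one_div_of_le hmid hge
    have e2 : 1 / ((1 - b) * (1 - s0 ^ 6) + b * (1 - s1 ^ 6)) ≤ (1 - b) * f0 + b * f1 := by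
      rw [div_le_iff₀ hmid, hf0, hf1]
      set u := 1 - s0 ^ 6 with hud
      set v := 1 - s1 ^ 6 with hvd
      have e3 : ((1 - b) * (1 / u) + b * (1 / v)) * ((1 - b) * u + b * v) =
          1 + (1 - b) * b * ((u - v) ^ 2 / (u * v)) := by
        field_simp
        ring
      rw [e3]
      have : 0 ≤ (1 - b) * b * ((u - v) ^ 2 / (u * v)) := by
        have : 0 ≤ 1 - b := by linarith
        positivity
      linarith
    have e4 : (1 - b) * f0 + b * f1 = f0 + (σ - s0) * k := by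
      rw [hk, hb]; field_simp; ring
    linarith
  have hint1 : IntervalIntegrable (fun σ : ℝ => 1 / (1 - σ ^ 6)) volume s0 s1 := by
    apply ContinuousOn.intervalIntegrable
    rw [uIcc_of_le h01]
    apply ContinuousOn.div continuousOn_const (by fun_prop)
    intro σ hσ
    exact (hpos σ hσ).ne'
  have hint2 : IntervalIntegrable (fun σ : ℝ => f0 + (σ - s0) * k) volume s0 s1 := by
    apply Continuous.intervalIntegrable
    fun_prop
  have hle := intervalIntegral.integral_mono_on h01 hint1 hint2 hpt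
  have hlin : ∫ σ in s0..s1, (f0 + (σ - s0) * k) = (f0 + f1) / 2 * (s1 - s0) := by
    have hd : ∀ σ ∈ uIcc s0 s1, HasDerivAt (fun σ : ℝ => f0 * σ + (σ - s0) ^ 2 / 2 * k)
        (f0 + (σ - s0) * k) σ := by
      intro σ _
      have a1 : HasDerivAt (fun σ : ℝ => f0 * σ) f0 σ := by
        simpa using (hasDerivAt_id' σ).const_mul f0
      have a2 : HasDerivAt (fun σ : ℝ => (σ - s0) ^ 2) (2 * (σ - s0)) σ := by
        have := ((hasDerivAt_id' σ).sub_const s0).fun_pow 2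
        simpa using this
      have a3 := a1.fun_add ((a2.div_const 2).mul_const k)
      refine a3.congr_deriv ?_
      ring
    rw [intervalIntegral.integral_eq_sub_of_hasDerivAt hd hint2]
    rw [hk]
    field_simp
    ring
  rw [hlin] at hle
  exact hle

end Pool.Agent.Lib.MP_b8b490_an.Four
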