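import Pool.Agent.Lib.MP_b8b490_an.Four.D4a

open MeasureTheory Set Filter Topology
open scoped ENNReal

namespace Pool.Agent.Lib.MP_b8b490_an.Four

/-! ### The bound for `G0` from a list of cells -/

/-- `∫ₐᵇ t²ⁿ dt` -/
noncomputable def mo (a b : ℝ) (n : ℕ) : ℝ := (b ^ (2 * n + 1) - a ^ (2 * n + 1)) / (2 * (n : ℝ) + 1)

theorem integral_mo (a b : ℝ) (n : ℕ) : ∫ t in a..b, (t ^ 2) ^ n = mo a b n := by
  simp only [← pow_mul]
  rw [integral_pow]
  unfold mo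
  push_cast
  ring

theorem d4b_int_sum (g : (ℕ × ℕ × ℤ) → ℝ → ℝ) (hg : ∀ q, Continuous (g q)) (a b : ℝ) :
    ∀ E : List (ℕ × ℕ × ℤ), Continuous (fun t => (E.map fun q => g q t).sum) ∧
      ∫ t in a..b, (E.map fun q => g q t).sum = (E.map fun q => ∫ t in a..b, g q t).sum
  | [] => by
    constructor
    · simpa using continuous_const
    · simp
  | q :: E => by
    obtain ⟨h1, h2⟩ := d4b_int_sum g hg a b E
    simp only [List.map_cons, List.sum_cons]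
    refine ⟨(hg q).add h1, ?_⟩
    rw [intervalIntegral.integral_add ((hg q).intervalIntegrable _ _)
      (h1.intervalIntegrable _ _), h2]

/-- integration of the majorant with an arbitrary continuous weight -/
theorem d4b_maj {w : ℝ → ℝ} (hw : Continuous w) (a b c x y : ℝ) :
    Continuous (fun t : ℝ => w t * (x * (1 - t ^ 2 * c) + y * Ef c (t ^ 2))) ∧
    ∫ t in a..b, w t * (x * (1 - t ^ 2 * c) + y * Ef c (t ^ 2)) =
      (x + y) * (∫ t in a..b, w t * (t ^ 2) ^ 0) + c * (-(x * ∫ t in a..b, w t * (t ^ 2) ^ 1) +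
        y * (EL.map fun q => ((q.2.2 : ℝ) / 2 ^ 20) * (∫ t in a..b, w t * (t ^ 2) ^ q.2.1) *
          c ^ q.1).sum) := by
  set g : (ℕ × ℕ × ℤ) → ℝ → ℝ := fun q t => ((q.2.2 : ℝ) / 2 ^ 20) * c ^ q.1 *
    (w t * (t ^ 2) ^ q.2.1) with hg
  have hgc : ∀ q, Continuous (g q) := fun q => by
    show Continuous fun t => ((q.2.2 : ℝ) / 2 ^ 20) * c ^ q.1 * (w t * (t ^ 2) ^ q.2.1)
    fun_prop
  obtain ⟨s1, s2⟩ := d4b_int_sum g hgc a b EL
  have e : ∀ t : ℝ, w t * (x * (1 - t ^ 2 * c) + y * Ef c (t ^ 2)) =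
      (x + y) * (w t * (t ^ 2) ^ 0) + (-(c * x)) * (w t * (t ^ 2) ^ 1) +
        (c * y) * (EL.map fun q => g q t).sum := by
    intro t
    rw [Ef_eq]
    have h1 : (EL.map fun q => g q t).sum = w t *
        (EL.map fun q => ((q.2.2 : ℝ) / 2 ^ 20) * c ^ q.1 * (t ^ 2) ^ q.2.1).sum := by
      rw [← List.sum_map_mul_left]
      congr 1
      refine List.map_congr_left fun q _ => ?_
      rw [hg]
      ring
    rw [h1]
    ring
  have k0 : Continuous fun t : ℝ => w t * (t ^ 2) ^ 0 := by fun_prop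
  have k1 : Continuous fun t : ℝ => w t * (t ^ 2) ^ 1 := by fun_prop
  simp only [e]
  have l0 : Continuous fun t : ℝ => (x + y) * (w t * (t ^ 2) ^ 0) := k0.const_mul _
  have l1 : Continuous fun t : ℝ => (-(c * x)) * (w t * (t ^ 2) ^ 1) := k1.const_mul _
  have l2 : Continuous fun t : ℝ => (c * y) * (EL.map fun q => g q t).sum := s1.const_mul _
  have l3 : Continuous fun t : ℝ => (x + y) * (w t * (t ^ 2) ^ 0) +
      (-(c * x)) * (w t * (t ^ 2) ^ 1) := l0.add l1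
  refine ⟨l3.add l2, ?_⟩
  rw [intervalIntegral.integral_add (l3.intervalIntegrable _ _) (l2.intervalIntegrable _ _),
    intervalIntegral.integral_add (l0.intervalIntegrable _ _) (l1.intervalIntegrable _ _),
    intervalIntegral.integral_const_mul, intervalIntegral.integral_const_mul,
    intervalIntegral.integral_const_mul, s2]
  have i3 : ∀ q : ℕ × ℕ × ℤ, ∫ t in a..b, g q t = ((q.2.2 : ℝ) / 2 ^ 20) *
        (∫ t in a..b, w t * (t ^ 2) ^ q.2.1) * c ^ q.1 := by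
    intro q
    show ∫ t in a..b, ((q.2.2 : ℝ) / 2 ^ 20) * c ^ q.1 * (w t * (t ^ 2) ^ q.2.1) = _
    rw [intervalIntegral.integral_const_mul]
    ring
  simp only [i3]
  ring

/-- the moments of the linear weight -/
theorem d4b_w (a b κ κ' : ℝ) (n : ℕ) :
    ∫ t in a..b, (κ + κ' * (1 - t ^ 2)) / 2 * (t ^ 2) ^ n =
      ((κ + κ') * mo a b n - κ' * mo a b (n + 1)) / 2 := by
  have e : ∀ t : ℝ, (κ + κ' * (1 - t ^ 2)) / 2 * (t ^ 2) ^ n =
      (κ + κ') / 2 * (t ^ 2) ^ n - κ' / 2 * (t ^ 2) ^ (n + 1) := by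
    intro t
    rw [pow_succ]
    ring
  have c1 : ∀ m : ℕ, Continuous fun t : ℝ => (t ^ 2) ^ m := fun m => by fun_prop
  simp only [e]
  rw [intervalIntegral.integral_sub (((c1 n).const_mul _).intervalIntegrable _ _)
    (((c1 (n + 1)).const_mul _).intervalIntegrable _ _), intervalIntegral.integral_const_mul,
    intervalIntegral.integral_const_mul, integral_mo, integral_mo]
  ring

theorem d4b_cell {σ a b X Y κ κ' : ℝ} (h0 : 0 ≤ σ) (h1 : σ ≤ 1) (ha : 0 ≤ a) (hab : a ≤ b)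
    (hb : b ≤ 1) (hX : 0 < X) (hY : 0 < Y) (hXY : 1 ≤ X * Y ^ 2) (hκ : 0 < κ) (hκ' : 0 < κ')
    (hκκ : 1 ≤ κ * κ') :
    ∫ t in a..b, H0 σ t ≤
      (X / 3 + 2 * Y / 3) * (((κ + κ') * mo a b 0 - κ' * mo a b (0 + 1)) / 2) +
      (1 - σ ^ 6) * (-(X / 3 * (((κ + κ') * mo a b 1 - κ' * mo a b (1 + 1)) / 2)) +
        2 * Y / 3 * (EL.map fun q => ((q.2.2 : ℝ) / 2 ^ 20) *
          (((κ + κ') * mo a b q.2.1 - κ' * mo a b (q.2.1 + 1)) / 2) *
            (1 - σ ^ 6) ^ q.1).sum) := by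
  have hcH : Continuous (fun t => H0 σ t) :=
    continuous_H0.comp (continuous_const.prodMk continuous_id)
  have hw : Continuous fun t : ℝ => (κ + κ' * (1 - t ^ 2)) / 2 := by fun_prop
  obtain ⟨k1, k2⟩ := d4b_maj hw a b (1 - σ ^ 6) (X / 3) (2 * Y / 3)
  have hm := intervalIntegral.integral_mono_on (μ := volume) hab (hcH.intervalIntegrable a b)
    (k1.intervalIntegrable a b) (fun t ht => by
      have ht0 : 0 ≤ t := ha.trans ht.1
      have ht1 : t ≤ 1 := ht.2.trans hb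
      exact H0_le h0 h1 ht0 ht1 hX hY hXY hκ hκ' hκκ)
  refine hm.trans (le_of_eq ?_)
  rw [k2]
  simp only [d4b_w]

theorem mu_cons (f : ℕ → ℕ → ℕ) (n : ℕ) {t0 t1 : ℕ} (h : t0 ≤ t1) (Y K : ℕ)
    (L : List (ℕ × ℕ × ℕ)) :
    mu ℝ f n t0 ((t1, Y, K) :: L) =
      (f Y K : ℝ) * mo ((t0 : ℝ) / 1024) ((t1 : ℝ) / 1024) n + mu ℝ f n t1 L := by
  have h1 : t0 ^ (2 * n + 1) ≤ t1 ^ (2 * n + 1) := Nat.pow_le_pow_left h _
  have h2 : (2 * (n : ℝ) + 1) ≠ 0 := by positivity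
  unfold mu mo
  simp only [SL]
  push_cast [Nat.cast_sub h1]
  rw [div_pow, div_pow]
  field_simp

theorem d4b_ind {σ : ℝ} (h0 : 0 ≤ σ) (h1 : σ ≤ 1) : ∀ (L : List (ℕ × ℕ × ℕ)) (t0 : ℕ),
    okL t0 L = true →
    t0 ≤ 1024 ∧ ∫ t in ((t0 : ℝ) / 1024)..1, H0 σ t ≤ 1 / (3 * 2 ^ 29) *
      ((mu ℝ fa 0 t0 L - mu ℝ fb (0 + 1) t0 L) + (1 - σ ^ 6) *
        (-(mu ℝ fc 1 t0 L - mu ℝ fd (1 + 1) t0 L) +
          2 * (EL.map fun q => ((q.2.2 : ℝ) / 2 ^ 20) *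
            (mu ℝ fe q.2.1 t0 L - mu ℝ ff (q.2.1 + 1) t0 L) * (1 - σ ^ 6) ^ q.1).sum))
  | [], t0, h => by
    have ht : t0 = 1024 := by simpa [okL] using h
    subst ht
    refine ⟨le_rfl, ?_⟩
    simp [mu, SL]
  | (t1, Y, K) :: L, t0, h => by
    simp only [okL, Bool.and_eq_true, decide_eq_true_eq] at h
    obtain ⟨ht, hY, hK, hL⟩ := h
    obtain ⟨ih1, ih2⟩ := d4b_ind h0 h1 L t1 hL
    refine ⟨by omega, ?_⟩
    have hY' : (0 : ℝ) < Y := by exact_mod_cast hY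
    have hK' : (0 : ℝ) < K := by exact_mod_cast hK
    have hX : 0 < XX Y := by
      by_contra hx
      have := XX_spec hY
      rw [Nat.eq_zero_of_not_pos hx] at this
      omega
    have hX' : (0 : ℝ) < XX Y := by exact_mod_cast hX
    have hQ : 0 < KK K := by
      by_contra hx
      have := KK_spec hK
      rw [Nat.eq_zero_of_not_pos hx] at this
      omega
    have hQ' : (0 : ℝ) < KK K := by exact_mod_cast hQ
    have ht' : (t0 : ℝ) ≤ t1 := by exact_mod_cast ht.le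
    have ht1 : (t1 : ℝ) ≤ 1024 := by exact_mod_cast ih1
    have hXY : (1 : ℝ) ≤ (XX Y : ℝ) / 16384 * ((Y : ℝ) / 16384) ^ 2 := by
      have h2 : (2 : ℝ) ^ 42 ≤ (XX Y : ℝ) * (Y : ℝ) ^ 2 := by exact_mod_cast XX_spec hY
      have e : (XX Y : ℝ) / 16384 * ((Y : ℝ) / 16384) ^ 2 = (XX Y : ℝ) * (Y : ℝ) ^ 2 / 2 ^ 42 := by
        ring
      rw [e, le_div_iff₀ (by positivity), one_mul]
      exact h2
    have hKK : (1 : ℝ) ≤ (K : ℝ) / 16384 * ((KK K : ℝ) / 16384) := by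
      have h2 : (2 : ℝ) ^ 28 ≤ (K : ℝ) * (KK K : ℝ) := by exact_mod_cast KK_spec hK
      have e : (K : ℝ) / 16384 * ((KK K : ℝ) / 16384) = (K : ℝ) * (KK K : ℝ) / 2 ^ 28 := by
        ring
      rw [e, le_div_iff₀ (by positivity), one_mul]
      exact h2
    have hc := d4b_cell (a := (t0 : ℝ) / 1024) (b := (t1 : ℝ) / 1024) h0 h1 (by positivity)
      (by gcongr) (by rw [div_le_one (by norm_num)]; exact ht1)
      (X := (XX Y : ℝ) / 16384) (Y := (Y : ℝ) / 16384) (by positivity) (by positivity) hXY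
      (κ := (K : ℝ) / 16384) (κ' := (KK K : ℝ) / 16384) (by positivity) (by positivity) hKK
    have hcH : Continuous (fun t => H0 σ t) :=
      continuous_H0.comp (continuous_const.prodMk continuous_id)
    rw [← intervalIntegral.integral_add_adjacent_intervals
      (hcH.intervalIntegrable ((t0 : ℝ) / 1024) ((t1 : ℝ) / 1024))
      (hcH.intervalIntegrable ((t1 : ℝ) / 1024) 1)]
    refine (add_le_add hc ih2).trans (le_of_eq ?_)
    simp only [mu_cons _ _ ht.le]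
    have s : (EL.map fun q => ((q.2.2 : ℝ) / 2 ^ 20) *
          (((fe Y K : ℕ) : ℝ) * mo ((t0 : ℝ) / 1024) ((t1 : ℝ) / 1024) q.2.1 + mu ℝ fe q.2.1 t1 L -
            (((ff Y K : ℕ) : ℝ) * mo ((t0 : ℝ) / 1024) ((t1 : ℝ) / 1024) (q.2.1 + 1) +
              mu ℝ ff (q.2.1 + 1) t1 L)) * (1 - σ ^ 6) ^ q.1).sum =
        2 * 16384 * (Y : ℝ) * (EL.map fun q => ((q.2.2 : ℝ) / 2 ^ 20) *
          ((((K : ℝ) / 16384 + (KK K : ℝ) / 16384) *
            mo ((t0 : ℝ) / 1024) ((t1 : ℝ) / 1024) q.2.1 -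
            (KK K : ℝ) / 16384 * mo ((t0 : ℝ) / 1024) ((t1 : ℝ) / 1024) (q.2.1 + 1)) / 2) *
            (1 - σ ^ 6) ^ q.1).sum +
        (EL.map fun q => ((q.2.2 : ℝ) / 2 ^ 20) *
            (mu ℝ fe q.2.1 t1 L - mu ℝ ff (q.2.1 + 1) t1 L) * (1 - σ ^ 6) ^ q.1).sum := by
      rw [← List.sum_map_mul_left, ← List.sum_map_add]
      congr 1
      refine List.map_congr_left fun q _ => ?_
      unfold fe ff
      push_cast
      ring
    rw [s]
    unfold fa fb fc fd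
    push_cast
    ring

theorem four_div_pi_le : 4 / Real.pi ≤ 21361415 / 2 ^ 24 := by
  have h := Real.pi_gt_d20
  rw [div_le_div_iff₀ Real.pi_pos (by norm_num)]
  have : (4 * 2 ^ 24 : ℝ) ≤ 21361415 * 3.14159265358979323846 := by norm_num
  nlinarith

theorem G0_le {σ : ℝ} (h0 : 0 ≤ σ) (h1 : σ ≤ 1) {L : List (ℕ × ℕ × ℕ)} (hL : okL 0 L = true) :
    G0 σ ≤ cw * ((mu ℝ fa 0 0 L - mu ℝ fb 1 0 L) + (1 - σ ^ 6) *
        (-(mu ℝ fc 1 0 L - mu ℝ fd 2 0 L) +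
          2 * (EL.map fun q => wq (𝕜 := ℝ) L q * (1 - σ ^ 6) ^ q.1).sum)) := by
  have h := (d4b_ind h0 h1 L 0 hL).2
  rw [Nat.cast_zero, zero_div] at h
  have hn : 0 ≤ ∫ t in (0 : ℝ)..1, H0 σ t :=
    intervalIntegral.integral_nonneg (by norm_num) fun t ht =>
      H0_nonneg h0 h1 ⟨by linarith [ht.1], ht.2⟩
  set B := (mu ℝ fa 0 0 L - mu ℝ fb 1 0 L) + (1 - σ ^ 6) *
        (-(mu ℝ fc 1 0 L - mu ℝ fd 2 0 L) +
          2 * (EL.map fun q => wq (𝕜 := ℝ) L q * (1 - σ ^ 6) ^ q.1).sum) with hB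
  have h2 : ∫ t in (0 : ℝ)..1, H0 σ t ≤ 1 / (3 * 2 ^ 29) * B := h
  have h3 : 0 ≤ 1 / (3 * 2 ^ 29) * B := hn.trans h2
  have hpi := Real.pi_pos
  calc G0 σ = 4 / Real.pi * ∫ t in (0 : ℝ)..1, H0 σ t := rfl
    _ ≤ 4 / Real.pi * (1 / (3 * 2 ^ 29) * B) := mul_le_mul_of_nonneg_left h2 (by positivity)
    _ ≤ 21361415 / 2 ^ 24 * (1 / (3 * 2 ^ 29) * B) := mul_le_mul_of_nonneg_right four_div_pi_le h3
    _ = cw * B := by
      unfold cw
      ring

/-- the same with the exact weight and `X = Y = 1` -/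
theorem G0_le_one {σ : ℝ} (h0 : 0 ≤ σ) (h1 : σ ≤ 1) :
    G0 σ ≤ 1 + (1 - σ ^ 6) * (-(1 / 12) +
      2 / 3 * (EL.map fun q => ((q.2.2 : ℝ) / 2 ^ 20) * cm q.2.1 * (1 - σ ^ 6) ^ q.1).sum) := by
  have hcH : Continuous (fun t => H0 σ t) :=
    continuous_H0.comp (continuous_const.prodMk continuous_id)
  have hw : Continuous fun t : ℝ => Real.sqrt (1 - t ^ 2) := by fun_prop
  obtain ⟨k1, k2⟩ := d4b_maj hw 0 1 (1 - σ ^ 6) (1 / 3) (2 / 3)
  have hm := intervalIntegral.integral_mono_on (μ := volume) zero_le_one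
    (hcH.intervalIntegrable 0 1) (k1.intervalIntegrable 0 1) (fun t ht =>
      H0_le_one h0 h1 ht.1 ht.2)
  rw [k2] at hm
  have hmom : ∀ n : ℕ, ∫ t in (0 : ℝ)..1, Real.sqrt (1 - t ^ 2) * (t ^ 2) ^ n =
      Real.pi / 4 * cm n := fun n => mom_eq n
  simp only [hmom] at hm
  have hpi := Real.pi_pos
  have hs : (EL.map fun q => ((q.2.2 : ℝ) / 2 ^ 20) * (Real.pi / 4 * cm q.2.1) *
      (1 - σ ^ 6) ^ q.1).sum = Real.pi / 4 *
      (EL.map fun q => ((q.2.2 : ℝ) / 2 ^ 20) * cm q.2.1 * (1 - σ ^ 6) ^ q.1).sum := by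
    rw [← List.sum_map_mul_left]
    congr 1
    refine List.map_congr_left fun q _ => ?_
    ring
  rw [hs] at hm
  have c0 : cm (K := ℝ) 0 = 1 := rfl
  have c1 : cm (K := ℝ) 1 = 1 / 4 := by
    simp [cm]
  rw [c0, c1] at hm
  have h2 : G0 σ = 4 / Real.pi * ∫ t in (0 : ℝ)..1, H0 σ t := rfl
  rw [h2]
  refine (mul_le_mul_of_nonneg_left hm (by positivity)).trans (le_of_eq ?_)
  field_simp
  ring

end Pool.Agent.Lib.MP_b8b490_an.Four
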