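import Pool.Agent.Lib.MP_b8b490_an.Four.D4c
import Pool.Agent.Lib.MP_b8b490_an.Four.Cert

open MeasureTheory Set Filter Topology
open scoped ENNReal

namespace Pool.Agent.Lib.MP_b8b490_an.Four

/-! ### The numerical bound -/

theorem pm_cast (s : ℚ) (m : ℕ) : ((pm s m : ℚ) : ℝ) = pm (s : ℝ) m := by
  induction m with
  | zero => rfl
  | succ m ih =>
    simp only [pm]
    push_cast
    rw [ih]

theorem cm_cast (n : ℕ) : ((cm n : ℚ) : ℝ) = cm n := by
  induction n with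
  | zero => simp [cm]
  | succ n ih =>
    simp only [cm]
    push_cast
    rw [ih]

private theorem D5_mu_cast (f : ℕ → ℕ → ℕ) (n t0 : ℕ) (L : List (ℕ × ℕ × ℕ)) :
    ((mu ℚ f n t0 L : ℚ) : ℝ) = mu ℝ f n t0 L := by
  unfold mu
  push_cast
  rfl

private theorem D5_wq_cast (L : List (ℕ × ℕ × ℕ)) (q : ℕ × ℕ × ℤ) :
    ((wq (𝕜 := ℚ) L q : ℚ) : ℝ) = wq (𝕜 := ℝ) L q := by
  unfold wq
  push_cast
  rw [D5_mu_cast, D5_mu_cast]

private theorem D5_cw_cast : ((cw (𝕜 := ℚ) : ℚ) : ℝ) = cw (𝕜 := ℝ) := by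
  unfold cw
  push_cast
  rfl

theorem rowV_cast (s0 s1 : ℚ) (L : List (ℕ × ℕ × ℕ)) :
    ((rowV s0 s1 L : ℚ) : ℝ) = rowV (s0 : ℝ) (s1 : ℝ) L := by
  unfold rowV
  push_cast
  simp only [List.map_map, Function.comp_def, Rat.cast_mul, Rat.cast_sub, pm_cast, D5_wq_cast,
    D5_mu_cast, D5_cw_cast]

theorem lastV_cast (s0 : ℚ) : ((lastV s0 : ℚ) : ℝ) = lastV (s0 : ℝ) := by
  unfold lastV
  push_cast
  have h1 : ∀ m : ℕ, ((pm (1 : ℚ) m : ℚ) : ℝ) = pm (1 : ℝ) m := by
    intro m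
    rw [pm_cast, Rat.cast_one]
  simp only [List.map_map, Function.comp_def, Rat.cast_mul, Rat.cast_sub, Rat.cast_div,
    Rat.cast_intCast, Rat.cast_pow, Rat.cast_ofNat, Rat.cast_one, pm_cast, cm_cast, h1]

theorem totV_cast (R : List (ℕ × List (ℕ × ℕ × ℕ))) :
    ∀ s0 : ℕ, ((totV ℚ s0 R : ℚ) : ℝ) = totV ℝ s0 R := by
  induction R with
  | nil =>
    intro s0
    simp [totV]
  | cons a R ih =>
    intro s0
    obtain ⟨s1, L⟩ := a
    simp only [totV]
    rw [Rat.cast_add, rowV_cast, ih s1]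
    push_cast
    rfl

private theorem D5_pm_cont (m : ℕ) : Continuous fun s : ℝ => pm s m := by
  induction m with
  | zero =>
    simp only [pm]
    exact continuous_id
  | succ m ih =>
    simp only [pm]
    refine Continuous.div_const ?_ _
    exact Continuous.add (by fun_prop) (continuous_const.mul ih)

private theorem D5_list_cont {ι : Type} (f : ι → ℝ → ℝ) (hf : ∀ i, Continuous (f i))
    (L : List ι) : Continuous fun s : ℝ => (L.map fun i => f i s).sum := by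
  induction L with
  | nil =>
    simp only [List.map_nil, List.sum_nil]
    exact continuous_const
  | cons a L ih =>
    simp only [List.map_cons, List.sum_cons]
    exact (hf a).add ih

/-- from `rows_ok`, `rows_tot`, `tot_le`, `last_le` (with `s0 = 1008 / 1024`) and the continuity of
`pm s m` in `s` -/
theorem integral_hh_le {ε : ℝ} (hε : 0 < ε) :
    ∀ᶠ s in 𝓝[<] (1 : ℝ), ∫ σ in (0 : ℝ)..s, hh σ ≤ -4409 / 10000 + ε := by
  have h1 := tot_le 1008 rows 0 rows_ok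
  have h2 : totV ℝ 0 rows + lastV (1008 / 1024 : ℝ) ≤ -4409 / 10000 := by
    have h := rows_tot
    have h' : ((totV ℚ 0 rows + lastV (1008 / 1024) : ℚ) : ℝ) ≤ ((-4409 / 10000 : ℚ) : ℝ) :=
      Rat.cast_le.2 h
    rw [Rat.cast_add, totV_cast, lastV_cast] at h'
    push_cast at h'
    exact h'
  set g : ℝ → ℝ := fun s => -(1 / 4) * (s - 1008 / 1024) +
      2 * (EL.map fun q => ((q.2.2 : ℝ) / 2 ^ 20) * cm q.2.1 *
        (pm s q.1 - pm (1008 / 1024 : ℝ) q.1)).sum with hg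
  have hgc : Continuous g := by
    have hl := D5_list_cont (fun (q : ℕ × ℕ × ℤ) (s : ℝ) =>
      ((q.2.2 : ℝ) / 2 ^ 20) * cm q.2.1 * (pm s q.1 - pm (1008 / 1024 : ℝ) q.1))
      (fun q => continuous_const.mul ((D5_pm_cont q.1).sub continuous_const)) EL
    exact (continuous_const.mul (continuous_id.sub continuous_const)).add (continuous_const.mul hl)
  have hg1 : g 1 = lastV (1008 / 1024 : ℝ) := rfl
  have h3 : ∀ᶠ s in 𝓝[<] (1 : ℝ), g s < lastV (1008 / 1024 : ℝ) + ε := by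
    have ht : Tendsto g (𝓝[<] (1 : ℝ)) (𝓝 (g 1)) := (hgc.tendsto 1).mono_left nhdsWithin_le_nhds
    rw [hg1] at ht
    exact ht.eventually (Iio_mem_nhds (by linarith))
  have h4 : ∀ᶠ s in 𝓝[<] (1 : ℝ), (1008 / 1024 : ℝ) < s :=
    nhdsWithin_le_nhds (Ioi_mem_nhds (by norm_num))
  have h5 : ∀ᶠ s in 𝓝[<] (1 : ℝ), s < 1 := self_mem_nhdsWithin
  filter_upwards [h3, h4, h5] with s hs3 hs4 hs5
  have h6 := last_le (s0 := (1008 / 1024 : ℝ)) (by norm_num) hs4.le hs5
  have i1 : IntervalIntegrable hh volume 0 (1008 / 1024) := by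
    refine (continuousOn_hh.mono ?_).intervalIntegrable
    rw [uIcc_of_le (by norm_num)]
    intro x hx
    exact ⟨hx.1, lt_of_le_of_lt hx.2 (by norm_num)⟩
  have i2 : IntervalIntegrable hh volume (1008 / 1024) s := by
    refine (continuousOn_hh.mono ?_).intervalIntegrable
    rw [uIcc_of_le hs4.le]
    intro x hx
    exact ⟨le_trans (by norm_num) hx.1, lt_of_le_of_lt hx.2 hs5⟩
  rw [← intervalIntegral.integral_add_adjacent_intervals i1 i2]
  have h7 : ∫ σ in (0 : ℝ)..(1008 / 1024), hh σ ≤ totV ℝ 0 rows := by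
    have e0 : (((0 : ℕ) : ℝ) / 1024) = 0 := by norm_num
    have e1 : (((1008 : ℕ) : ℝ) / 1024) = 1008 / 1024 := by norm_num
    rw [e0, e1] at h1
    exact h1
  have h8 : ∫ σ in (1008 / 1024 : ℝ)..s, hh σ ≤ g s := h6
  linarith

end Pool.Agent.Lib.MP_b8b490_an.Four
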